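import Pool.Agent.W659.FD.Absg


/-! FD (helper890): the abstract sieve theorem over `ℚ` with an explicit level. -/

set_option autoImplicit false

namespace Pool.Agent.N890.FD

open Finset Filter Topology Pool.Agent.H925R3.DC Pool.Agent.H925R3.DD Pool.Agent.W659.FD

/-- the abstract sieve theorem with a level `N` -/
def S_ABSN : Prop := ∀ (G : Type) [AddCommGroup G] [AddGroup.FG G] (n : ℕ), 1 ≤ n →
  ∀ (M D : ℕ), 0 < M → 0 < D → ∀ (Ω : (p : ℕ) → G → Set (Fin n → ZMod p)) (η : ℝ),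
  0 < η → η ≤ 1 →
  (∀ p : ℕ, p.Prime → 2 < p → ¬ p ∣ D → M ∣ p + 1 →
    (∀ P P' R : G, P = P' + (p + 1) • R → Ω p P = Ω p P') ∧
    (∀ P, ((Ω p P).ncard : ℝ) ≤ (1 - η) * (p : ℝ) ^ n)) →
  ∀ ε : ℝ, 0 < ε → ∃ δ : ℝ, 0 < δ ∧ δ ≤ 1 ∧ ∃ H₀ : ℕ, ∀ H : ℕ, H₀ ≤ H →
    ∃ N : ℕ, 1 ≤ N ∧ Real.log N ≤ Real.log H ^ (1 - δ) ∧
    (Nat.card {t : Fin n → ℤ // (∀ j, |t j| ≤ H) ∧ ∃ P : G, ∀ p : ℕ, p.Prime → 2 < p → ¬ p ∣ D →
      M ∣ p + 1 → p + 1 ∣ N → (fun j => (t j : ZMod p)) ∈ Ω p P} : ℝ) ≤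
      (H : ℝ) ^ ((n : ℝ) - 1 / 5 + ε)

theorem absn_aux (hCLS : CLS) (hPRM : PRMG) (hMOM : MOM) (hPAR : PARB) : S_ABSN := by
  classical
  intro G _ _ n hn M D hM hD Ω η₀ hη0 hη1 hp ε hε
  obtain ⟨t, ht⟩ := hCLS G
  obtain ⟨δ, hδ, hδ1, η', hη', hη1', H₀, hpar⟩ := hPAR t 1 n η₀ le_rfl hn hη0 hη1 ε hε
  set η : ℝ := min η' (δ / 8) with hηdef
  have hη : 0 < η := lt_min hη' (by linarith)
  have hηη : η ≤ η' := min_le_left _ _
  have hηδ : η ≤ δ / 8 := min_le_right _ _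
  obtain ⟨X₀, hprm⟩ := hPRM M D (-1) 1 hM hD ⟨-1, 0, by ring⟩ (Or.inl rfl) η hη
  have hev := (tendsto_X hδ1).eventually_ge_atTop (max X₀ 1)
  obtain ⟨H₁, hH₁⟩ := (hev.and (eventually_ge_atTop (max H₀ 3))).exists_forall_of_atTop
  refine ⟨δ / 4, by linarith, by linarith, H₁, ?_⟩
  intro H hH
  obtain ⟨hX, hHH⟩ := hH₁ H hH
  have hHH0 : H₀ ≤ H := (le_max_left _ _).trans hHH
  have hH3 : 3 ≤ H := (le_max_right _ _).trans hHH
  have hH1 : 1 ≤ H := by omega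
  have hHR : (1 : ℝ) ≤ H := by exact_mod_cast hH1
  have hlogH : 1 ≤ Real.log H := by
    rw [Real.le_log_iff_exp_le (by linarith)]
    have h3 : (3 : ℝ) ≤ H := by exact_mod_cast hH3
    linarith [Real.exp_one_lt_d9]
  set X : ℝ := Real.log H ^ (2 - δ) with hXdef
  have hX1 : 1 ≤ X := (le_max_right _ _).trans hX
  obtain ⟨S, N, hN, hS1, hS2, hN2⟩ := hprm X ((le_max_left _ _).trans hX)
  have hlogN : Real.log N ≤ Real.log H ^ (1 - δ / 4) := by
    refine hN2.trans ?_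
    rw [hXdef, ← Real.rpow_mul (by linarith)]
    apply Real.rpow_le_rpow_of_exponent_le hlogH
    nlinarith
  refine ⟨N, hN, hlogN, ?_⟩
  set PP : (Fin n → ℤ) → Prop := fun c => ∃ P : G, ∀ p : ℕ, p.Prime → 2 < p → ¬ p ∣ D →
      M ∣ p + 1 → p + 1 ∣ N → (fun j => (c j : ZMod p)) ∈ Ω p P with hPP
  have key : (Nat.card {c : Fin n → ℤ // (∀ j, |c j| ≤ H) ∧ PP c} : ℝ) ≤
      (H : ℝ) ^ ((n : ℝ) - 1 / 5 + ε) := by
    have hS1' : ∀ p ∈ S, p.Prime ∧ 2 < p ∧ (p : ℝ) ≤ X ∧ ¬ p ∣ D ∧ M ∣ p + 1 ∧ p + 1 ∣ N := by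
      intro p hpS
      obtain ⟨a1, a2, a3, a4, a5, a6⟩ := hS1 p hpS
      refine ⟨a1, a2, a3, a4, ?_, ?_⟩
      · rw [sub_neg_eq_add] at a5
        exact_mod_cast a5
      · exact_mod_cast a6
    have hXη : X ^ (1 - η') ≤ X ^ (1 - η) :=
      Real.rpow_le_rpow_of_exponent_le hX1 (by linarith)
    have hn1 : X ^ (1 - η') / ((1 : ℕ) : ℝ) - 1 ≤ (S.card : ℝ) := by
      rw [Nat.cast_one, div_one]
      linarith
    have hN2' : Real.log N ≤ X ^ (1 / 2 + η') :=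
      hN2.trans (Real.rpow_le_rpow_of_exponent_le hX1 (by linarith))
    obtain ⟨hbig, k, hk2, hk3⟩ := hpar H hHH0 X rfl S.card hn1 N hN hN2'
    obtain ⟨T, hT1, hT2⟩ := ht N hN
    have hch : (0 : ℝ) < S.card.choose k := by exact_mod_cast hk2
    have hden : (0 : ℝ) < η₀ ^ (2 * k) * (S.card.choose k : ℝ) ^ 2 := by positivity
    set A : ℝ := (S.card.choose k : ℝ) * (2 * (H : ℝ) + 1) ^ n +
        (S.card.choose k : ℝ) ^ 2 * (n * (⌊X⌋₊ : ℝ) ^ (2 * k) * (2 * (H : ℝ) + 1) ^ (n - 1)) with hA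
    have hA0 : 0 ≤ A := by positivity
    -- one class
    have hclass : ∀ g ∈ T, (Nat.card {c : Fin n → ℤ // (∀ j, |c j| ≤ H) ∧
        ∀ p ∈ S, (fun j => (c j : ZMod p)) ∈ Ω p g} : ℝ) ≤
        A / (η₀ ^ (2 * k) * (S.card.choose k : ℝ) ^ 2) := by
      intro g _
      have h1 := hMOM n S k ⌊X⌋₊ (2 * H + 1) η₀ (fun _ _ => 1) (fun _ _ => -((H : ℤ) + 1))
        (fun p => Ω p g) hn hη0 hη1 (by
        intro p hpS
        obtain ⟨a1, a2, a3, a4, a5, -⟩ := hS1' p hpS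
        refine ⟨a1, Nat.le_floor a3, fun i h => ?_, (hp p a1 a2 a4 a5).2 g⟩
        have h2 := Int.natAbs_dvd_natAbs.2 h
        simp only [Int.natAbs_natCast, Int.natAbs_one, Nat.dvd_one] at h2
        omega)
      rw [le_div_iff₀ hden]
      have hcast : ((2 * H + 1 : ℕ) : ℝ) = 2 * (H : ℝ) + 1 := by push_cast; ring
      rw [hcast, ← hA] at h1
      refine le_trans ?_ h1
      refine mul_le_mul_of_nonneg_right ?_ hden.le
      have hb : ∀ (c : {c : Fin n → ℤ // (∀ j, |c j| ≤ H) ∧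
          ∀ p ∈ S, (fun j => (c j : ZMod p)) ∈ Ω p g}) (j : Fin n),
          (((c.1 j + (H + 1)).toNat : ℕ) : ℤ) = c.1 j + (H + 1) := by
        intro c j
        have := abs_le.1 (c.2.1 j)
        rw [Int.toNat_of_nonneg]
        linarith [this.1]
      have hfin : Finite {t : Fin n → ℕ // (∀ i, t i ∈ Icc 1 (2 * H + 1)) ∧
          ∀ p ∈ S, (fun i => (((fun _ _ => 1 : ℕ → Fin n → ℤ) p i * t i +
            (fun _ _ => -((H : ℤ) + 1) : ℕ → Fin n → ℤ) p i : ℤ) : ZMod p)) ∈ Ω p g} := by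
        have : {t : Fin n → ℕ | ∀ i, t i ∈ Set.Icc 1 (2 * H + 1)}.Finite :=
          Set.Finite.pi' fun _ => Set.finite_Icc _ _
        apply Set.Finite.subset this
        rintro c ⟨hc, -⟩ j
        simpa using hc j
      have h5 := Nat.card_le_card_of_injective
        (α := {c : Fin n → ℤ // (∀ j, |c j| ≤ H) ∧
          ∀ p ∈ S, (fun j => (c j : ZMod p)) ∈ Ω p g})
        (β := {t : Fin n → ℕ // (∀ i, t i ∈ Icc 1 (2 * H + 1)) ∧
          ∀ p ∈ S, (fun i => (((fun _ _ => 1 : ℕ → Fin n → ℤ) p i * t i +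
            (fun _ _ => -((H : ℤ) + 1) : ℕ → Fin n → ℤ) p i : ℤ) : ZMod p)) ∈ Ω p g})
        (fun c => ⟨fun j => (c.1 j + (H + 1)).toNat, by
          constructor
          · intro j
            have h2 := abs_le.1 (c.2.1 j)
            have h3 := hb c j
            rw [mem_Icc]
            constructor
            · zify; rw [h3]; linarith [h2.1]
            · zify; rw [h3]; linarith [h2.2]
          · intro p hpS
            have h2 := c.2.2 p hpS
            convert h2 using 2 with j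
            rw [hb c j]
            ring_nf⟩) (by
          intro c c' hcc
          apply Subtype.ext
          funext j
          have h1 := congrArg (fun f => (((f.1 j : ℕ) : ℤ))) hcc
          simp only at h1
          rw [hb c j, hb c' j] at h1
          linarith)
      exact_mod_cast h5
    have hub := union_bound H T PP
      (fun g c => ∀ p ∈ S, (fun j => (c j : ZMod p)) ∈ Ω p g)
      (by
        rintro c ⟨P, hP⟩
        obtain ⟨g, hg, R, hR⟩ := hT2 P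
        refine ⟨g, hg, ?_⟩
        intro p hpS
        obtain ⟨a1, a2, a3, a4, a5, a6⟩ := hS1' p hpS
        have h2 := hP p a1 a2 a4 a5 a6
        obtain ⟨w, hw⟩ := a6
        have hPR : P = g + (p + 1) • (w • R) := by
          rw [hR, hw, mul_smul]
        have h1 := (hp p a1 a2 a4 a5).1 P g (w • R) hPR
        rwa [h1] at h2) _ hclass
    refine hub.trans ?_
    have hTN : (T.card : ℝ) ≤ (N : ℝ) ^ t := by exact_mod_cast hT1
    refine le_trans ?_ hk3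
    gcongr
  exact key

theorem absn : S_ABSN := absn_aux Pool.Agent.H133R3.DC.cls prmg' Pool.Agent.H582R4.MOM.mom
  Pool.Agent.H619R2.DDPARB.parb

/-- the abstract sieve theorem for an arbitrary finite index type -/
theorem absNI (G : Type) [AddCommGroup G] [AddGroup.FG G] (ι : Type) [Fintype ι] [Nonempty ι]
    (M D : ℕ) (hM : 0 < M) (hD : 0 < D) (Ω : (p : ℕ) → G → Set (ι → ZMod p)) (η : ℝ)
    (hη : 0 < η) (hη1 : η ≤ 1)
    (h : ∀ p : ℕ, p.Prime → 2 < p → ¬ p ∣ D → M ∣ p + 1 →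
      (∀ P P' R : G, P = P' + (p + 1) • R → Ω p P = Ω p P') ∧
      (∀ P, ((Ω p P).ncard : ℝ) ≤ (1 - η) * (p : ℝ) ^ Fintype.card ι)) (ε : ℝ) (hε : 0 < ε) :
    ∃ δ : ℝ, 0 < δ ∧ δ ≤ 1 ∧ ∃ H₀ : ℕ, ∀ H : ℕ, H₀ ≤ H →
      ∃ N : ℕ, 1 ≤ N ∧ Real.log N ≤ Real.log H ^ (1 - δ) ∧
      (({t : ι → ℤ | (∀ j, |t j| ≤ H) ∧ ∃ P : G, ∀ p : ℕ, p.Prime → 2 < p → ¬ p ∣ D →
        M ∣ p + 1 → p + 1 ∣ N → (fun j => (t j : ZMod p)) ∈ Ω p P}.ncard : ℕ) : ℝ) ≤
      (H : ℝ) ^ ((Fintype.card ι : ℝ) - 1 / 5 + ε) := by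
  classical
  set f : ι ≃ Fin (Fintype.card ι) := Fintype.equivFin ι with hf
  obtain ⟨δ, hδ, hδ1, H₀, hC⟩ := absn G (Fintype.card ι) Fintype.card_pos M D hM hD
    (fun p P => {s | (fun j => s (f j)) ∈ Ω p P}) η hη hη1 (by
      intro p h1 h2 h3 h4
      obtain ⟨h5, h6⟩ := h p h1 h2 h3 h4
      refine ⟨fun P P' R hP => ?_, fun P => ?_⟩
      · rw [h5 P P' R hP]
      · refine le_trans (le_of_eq ?_) (h6 P)
        congr 1
        have h7 : Ω p P = (fun s : Fin (Fintype.card ι) → ZMod p => fun j => s (f j)) ''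
            {s | (fun j => s (f j)) ∈ Ω p P} := by
          ext t
          constructor
          · intro ht
            refine ⟨fun j => t (f.symm j), ?_, ?_⟩
            · simpa using ht
            · funext j
              simp
          · rintro ⟨s, hs, rfl⟩
            exact hs
        conv_rhs => rw [h7]
        rw [Set.ncard_image_of_injective]
        intro s s' hss
        funext j
        have := congrFun hss (f.symm j)
        simpa using this) ε hε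
  refine ⟨δ, hδ, hδ1, H₀, fun H hH => ?_⟩
  obtain ⟨N, hN1, hN2, hN3⟩ := hC H hH
  refine ⟨N, hN1, hN2, le_trans (le_of_eq ?_) hN3⟩
  congr 1
  rw [← Nat.card_coe_set_eq]
  refine Nat.card_congr ⟨fun t => ⟨fun j => t.1 (f.symm j), fun j => t.2.1 _, ?_⟩,
    fun t => ⟨fun j => t.1 (f j), fun j => t.2.1 _, ?_⟩, ?_, ?_⟩
  · obtain ⟨P, hP⟩ := t.2.2
    refine ⟨P, fun p h1 h2 h3 h4 h5 => ?_⟩
    have := hP p h1 h2 h3 h4 h5
    simpa using this
  · obtain ⟨P, hP⟩ := t.2.2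
    exact ⟨P, fun p h1 h2 h3 h4 h5 => hP p h1 h2 h3 h4 h5⟩
  · intro t
    apply Subtype.ext
    funext j
    simp
  · intro t
    apply Subtype.ext
    funext j
    simp

end Pool.Agent.N890.FD
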