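import Pool.Agent.N890.FD.Bonf

/-! FD (helper890): the local density for families whose fibres have at most `B q ^ κ` points. -/

set_option autoImplicit false

namespace Pool.Agent.N890.FD

open Finset MvPolynomial Pool.Agent.N89.CI

open scoped LinearAlgebra.Projectivization

/-- **Density.** -/
theorem densityG {k : Type} [Field k] [Fintype k] {r κ m : ℕ} (d : Fin κ → Fin r → ℕ)
    (e : Fin κ → ℕ) (K : ℕ) (hK2 : 2 ≤ K) (hKe : Even K) (he : ∀ j, K ≤ e j + 2) (hκ : 1 ≤ κ)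
    (B : ℝ) (hB : 0 ≤ B) (hK : 6 * B ≤ K)
    (V : Fin r → Fin 3 → k) (hV : ∀ i, V i ≠ 0) (Θ : (Fin (m + 1) → k) → Prop)
    (hΘ : ∀ (T : Fin (m + 1) → k) (u : k), u ≠ 0 → Θ T → Θ (u • T))
    (hcard : (({P : ℙ k (Fin (m + 1) → k) | Θ P.rep}.ncard : ℕ) : ℝ) ≤
      B * (Nat.card k : ℝ) ^ κ) :
    (({c : Idx m d e → k | ∃ T : Fin (m + 1) → k, T ≠ 0 ∧ Θ T ∧
      ∀ j, form c j V T = 0}.ncard : ℕ) : ℝ) ≤
      (1 - Real.exp (-(K / 3 : ℝ)) / 2) * (Nat.card k : ℝ) ^ Fintype.card (Idx m d e) := by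
  classical
  have : Finite (ℙ k (Fin (m + 1) → k)) := by
    unfold Projectivization
    infer_instance
  let _ : Fintype {P : ℙ k (Fin (m + 1) → k) // Θ P.rep} := Fintype.ofFinite _
  have h1 : ({c : Idx m d e → k | ∃ T : Fin (m + 1) → k, T ≠ 0 ∧ Θ T ∧
      ∀ j, form c j V T = 0}) =
      {c : Idx m d e → k | ∃ P : {P : ℙ k (Fin (m + 1) → k) // Θ P.rep},
        ∀ j, form c j V P.1.rep = 0} := by
    ext c
    constructor
    · rintro ⟨T, hT, hΘT, hc⟩
      obtain ⟨u, hu⟩ := Projectivization.exists_smul_eq_mk_rep k T hT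
      have hu' : (u : k) • T = (Projectivization.mk k T hT).rep := hu
      refine ⟨⟨Projectivization.mk k T hT, ?_⟩, fun j => ?_⟩
      · rw [← hu']
        exact hΘ T u u.ne_zero hΘT
      · simp only
        rw [← hu', form_smul, hc j, mul_zero]
    · rintro ⟨P, hP⟩
      exact ⟨P.1.rep, P.1.rep_nonzero, P.2, hP⟩
  rw [h1]
  have hQ : (2 : ℝ) ≤ (Nat.card k : ℝ) ^ κ := by
    have h2 : (2 : ℝ) ≤ Nat.card k := by
      rw [Nat.card_eq_fintype_card]
      exact_mod_cast (Fintype.one_lt_card : 1 < Fintype.card k)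
    have h3 : (1 : ℝ) ≤ Nat.card k := by linarith
    calc (2 : ℝ) ≤ (Nat.card k : ℝ) ^ 1 := by rw [pow_one]; exact h2
      _ ≤ (Nat.card k : ℝ) ^ κ := pow_le_pow_right₀ h3 hκ
  have h2 := bonfG (Pt := {P : ℙ k (Fin (m + 1) → k) // Θ P.rep}) (C := Idx m d e → k)
    (fun P c => ∀ j, form c j V P.1.rep = 0) ((Nat.card k : ℝ) ^ κ) hQ B hB K hK hK2 hKe hcard (by
      intro n hn1 hn3 f
      have h4 := card_vanish d e V hV (fun i => (f i).1.rep) (fun i => (f i).1.rep_nonzero) (by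
        intro i i' hii' u hu
        apply hii'
        apply f.injective
        apply Subtype.ext
        have h5 : u • (f i).1.rep = (f i').1.rep := hu.symm
        rw [← Projectivization.mk_rep (f i).1, ← Projectivization.mk_rep (f i').1]
        symm
        rw [Projectivization.mk_eq_mk_iff']
        exact ⟨u, h5⟩) (fun j => by have := he j; omega)
      rw [← pow_mul, mul_comm κ n]
      exact_mod_cast h4)
  refine h2.trans (le_of_eq ?_)
  congr 1
  rw [Nat.card_fun, Nat.card_eq_fintype_card (α := Idx m d e)]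
  push_cast
  rfl

/-- the local density of the family -/
theorem dens_familyG {R k : Type} [CommRing R] [Field k] [Fintype k] (φ : R →+* k) {r m κ : ℕ}
    {L : Type} (Φ : L → Pol0 R r m) (d' : L → Fin r → ℕ) (e' : L → ℕ)
    (hΦ : ∀ l, MHomog0 (Φ l) (d' l) (e' l)) (d : Fin κ → Fin r → ℕ) (e : Fin κ → ℕ)
    (K : ℕ) (hK2 : 2 ≤ K) (hKe : Even K) (he : ∀ j, K ≤ e j + 2) (hκ : 1 ≤ κ)
    (B : ℝ) (hB : 0 ≤ B) (hK : 6 * B ≤ K) (V : Fin r → Fin 3 → k)
    (hV : ∀ i, V i ≠ 0)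
    (hcard : (({P : ℙ k (Fin (m + 1) → k) | ∀ l, val0 φ (Φ l) V P.rep = 0}.ncard : ℕ) : ℝ) ≤
      B * (Nat.card k : ℝ) ^ κ) :
    (({t : Idx m d e → k | ∃ T : Fin (m + 1) → k, T ≠ 0 ∧ ∀ l : L ⊕ Fin κ,
      valP φ (Sum.elim (fun l => lift0 (Idx m d e) (Φ l)) (gen R m d e) l) V T t = 0}.ncard : ℕ) : ℝ)
      ≤ (1 - Real.exp (-(K / 3 : ℝ)) / 2) * (Nat.card k : ℝ) ^ Fintype.card (Idx m d e) := by
  have h := densityG d e K hK2 hKe he hκ B hB hK V hV (fun T => ∀ l, val0 φ (Φ l) V T = 0) (by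
    intro T u _ hT l
    rw [val0_smul φ (Φ l) (d' l) (e' l) (hΦ l), hT l, mul_zero]) hcard
  refine le_trans (le_of_eq ?_) h
  congr 2
  ext t
  simp only [Set.mem_ofPred_eq]
  refine exists_congr fun T => and_congr_right fun _ => ?_
  constructor
  · intro h1
    refine ⟨fun l => ?_, fun j => ?_⟩
    · have h2 := h1 (Sum.inl l)
      simp only [Sum.elim_inl] at h2
      rwa [valP_lift0] at h2
    · have h2 := h1 (Sum.inr j)
      simp only [Sum.elim_inr] at h2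
      rwa [valP_gen] at h2
  · rintro ⟨h1, h2⟩ l
    rcases l with l | j
    · simp only [Sum.elim_inl]
      rw [valP_lift0]
      exact h1 l
    · simp only [Sum.elim_inr]
      rw [valP_gen]
      exact h2 j

/-- the coefficients of the first `κ` forms -/
def emb {r s κ : ℕ} (m : ℕ) (h : κ ≤ s) (d : Fin s → Fin r → ℕ) (e : Fin s → ℕ)
    (x : Idx m (fun j : Fin κ => d (Fin.castLE h j)) (fun j => e (Fin.castLE h j))) :
    Idx m d e := ⟨Fin.castLE h x.1, x.2⟩

theorem emb_inj {r s κ : ℕ} (m : ℕ) (h : κ ≤ s) (d : Fin s → Fin r → ℕ) (e : Fin s → ℕ) :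
    Function.Injective (emb m h d e) := by
  rintro ⟨j, x⟩ ⟨j', x'⟩ hxx
  unfold emb at hxx
  have h1 : Fin.castLE h j = Fin.castLE h j' := congrArg Sigma.fst hxx
  have h2 : j = j' := Fin.castLE_injective h h1
  subst h2
  have h3 : x = x' := eq_of_heq (Sigma.mk.inj hxx).2
  rw [h3]

/-- restriction of vectors to an injective family of coordinates -/
theorem ncard_restrict {α β k : Type} [Fintype α] [Fintype β] [Fintype k]
    (f : α → β) (hf : Function.Injective f) (S : Set (α → k)) (q : ℝ)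
    (h : ((S.ncard : ℕ) : ℝ) ≤ q * (Fintype.card k : ℝ) ^ Fintype.card α) :
    (({t : β → k | (fun x => t (f x)) ∈ S}.ncard : ℕ) : ℝ) ≤
      q * (Fintype.card k : ℝ) ^ Fintype.card β := by
  classical
  let γ := {y : β // y ∉ Set.range f}
  have hcard : Fintype.card β = Fintype.card α + Fintype.card γ := by
    have h1 := Fintype.card_subtype_compl (fun y => y ∈ Set.range f)
    have h2 : Fintype.card {y // y ∈ Set.range f} = Fintype.card α :=
      (Fintype.card_congr (Equiv.ofInjective f hf)).symm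
    have h3 : Fintype.card {y // y ∈ Set.range f} ≤ Fintype.card β := Fintype.card_subtype_le _
    have h4 : Fintype.card γ = Fintype.card β - Fintype.card {y // y ∈ Set.range f} := h1
    omega
  have h1 : {t : β → k | (fun x => t (f x)) ∈ S}.ncard ≤
      (S ×ˢ (Set.univ : Set (γ → k))).ncard := by
    refine Set.ncard_le_ncard_of_injOn (fun t => (fun x => t (f x), fun y : γ => t y.1)) ?_ ?_
      (Set.toFinite _)
    · intro t ht
      exact ⟨ht, Set.mem_univ _⟩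
    · intro t _ t' _ htt
      funext y
      by_cases hy : y ∈ Set.range f
      · obtain ⟨x, rfl⟩ := hy
        exact congrFun (congrArg Prod.fst htt) x
      · exact congrFun (congrArg Prod.snd htt) ⟨y, hy⟩
  rw [Set.ncard_prod, Set.ncard_univ, Nat.card_fun, Nat.card_eq_fintype_card,
    Nat.card_eq_fintype_card] at h1
  have h2 : (({t : β → k | (fun x => t (f x)) ∈ S}.ncard : ℕ) : ℝ) ≤
      (S.ncard : ℝ) * (Fintype.card k : ℝ) ^ Fintype.card γ := by exact_mod_cast h1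
  refine h2.trans ?_
  rw [hcard, pow_add, ← mul_assoc]
  exact mul_le_mul_of_nonneg_right h (by positivity)

/-- the local density, for at least `κ` forms and fibres with at most `B q ^ κ` points -/
theorem dens_all {κ s : ℕ} (hκ : 1 ≤ κ) (hs : κ ≤ s) (e : Fin s → ℕ) (B : ℝ)
    (hB : B ≤ 3 / 2 ∧ (∀ j : Fin s, j.1 < κ → 2 ≤ e j) ∨
      ∀ j : Fin s, j.1 < κ → 6 * B ≤ e j) :
    ∃ θ : ℝ, 0 ≤ θ ∧ θ < 1 ∧ ∀ {R k : Type} [CommRing R] [Field k] [Fintype k] (φ : R →+* k)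
    {r m : ℕ} {L : Type} (Φ : L → Pol0 R r m) (d' : L → Fin r → ℕ) (e' : L → ℕ)
    (_hΦ : ∀ l, MHomog0 (Φ l) (d' l) (e' l)) (d : Fin s → Fin r → ℕ)
    (_hk : 37 ≤ Nat.card k) (V : Fin r → Fin 3 → k) (_hV : ∀ i, V i ≠ 0)
    (_hcard : (({P : ℙ k (Fin (m + 1) → k) | ∀ l, val0 φ (Φ l) V P.rep = 0}.ncard : ℕ) : ℝ) ≤
      B * (Nat.card k : ℝ) ^ κ),
    (({t : Idx m d e → k | ∃ T : Fin (m + 1) → k, T ≠ 0 ∧ ∀ l : L ⊕ Fin s,
      valP φ (Sum.elim (fun l => lift0 (Idx m d e) (Φ l)) (gen R m d e) l) V T t = 0}.ncard : ℕ) : ℝ)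
      ≤ θ * (Nat.card k : ℝ) ^ Fintype.card (Idx m d e) := by
  classical
  -- reduction to the first `κ` forms
  have hred : ∀ θ : ℝ, (∀ {R k : Type} [CommRing R] [Field k] [Fintype k] (φ : R →+* k)
      {r m : ℕ} {L : Type} (Φ : L → Pol0 R r m) (d' : L → Fin r → ℕ) (e' : L → ℕ)
      (_hΦ : ∀ l, MHomog0 (Φ l) (d' l) (e' l)) (d : Fin s → Fin r → ℕ)
      (_hk : 37 ≤ Nat.card k) (V : Fin r → Fin 3 → k) (_hV : ∀ i, V i ≠ 0)
      (_hcard : (({P : ℙ k (Fin (m + 1) → k) | ∀ l, val0 φ (Φ l) V P.rep = 0}.ncard : ℕ) : ℝ) ≤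
        B * (Nat.card k : ℝ) ^ κ),
      (({t : Idx m (fun j : Fin κ => d (Fin.castLE hs j)) (fun j => e (Fin.castLE hs j)) → k |
        ∃ T : Fin (m + 1) → k, T ≠ 0 ∧ ∀ l : L ⊕ Fin κ,
        valP φ (Sum.elim (fun l => lift0 (Idx m (fun j : Fin κ => d (Fin.castLE hs j))
          (fun j => e (Fin.castLE hs j))) (Φ l)) (gen R m (fun j : Fin κ => d (Fin.castLE hs j))
          (fun j => e (Fin.castLE hs j))) l) V T t = 0}.ncard : ℕ) : ℝ)
        ≤ θ * (Nat.card k : ℝ) ^ Fintype.card (Idx m (fun j : Fin κ => d (Fin.castLE hs j))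
          (fun j => e (Fin.castLE hs j)))) →
      ∀ {R k : Type} [CommRing R] [Field k] [Fintype k] (φ : R →+* k)
      {r m : ℕ} {L : Type} (Φ : L → Pol0 R r m) (d' : L → Fin r → ℕ) (e' : L → ℕ)
      (_hΦ : ∀ l, MHomog0 (Φ l) (d' l) (e' l)) (d : Fin s → Fin r → ℕ)
      (_hk : 37 ≤ Nat.card k) (V : Fin r → Fin 3 → k) (_hV : ∀ i, V i ≠ 0)
      (_hcard : (({P : ℙ k (Fin (m + 1) → k) | ∀ l, val0 φ (Φ l) V P.rep = 0}.ncard : ℕ) : ℝ) ≤
        B * (Nat.card k : ℝ) ^ κ),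
      (({t : Idx m d e → k | ∃ T : Fin (m + 1) → k, T ≠ 0 ∧ ∀ l : L ⊕ Fin s,
        valP φ (Sum.elim (fun l => lift0 (Idx m d e) (Φ l)) (gen R m d e) l) V T t = 0}.ncard :
          ℕ) : ℝ)
        ≤ θ * (Nat.card k : ℝ) ^ Fintype.card (Idx m d e) := by
    intro θ h R k _ _ _ φ r m L Φ d' e' hΦ d hk V hV hcard
    have h := h φ Φ d' e' hΦ d hk V hV hcard
    rw [Nat.card_eq_fintype_card] at h ⊢
    have h1 := ncard_restrict (emb m hs d e) (emb_inj m hs d e) _ _ h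
    refine le_trans (Nat.cast_le.2 (Set.ncard_le_ncard ?_ (Set.toFinite _))) h1
    rintro t ⟨T, hT, hz⟩
    refine ⟨T, hT, fun l => ?_⟩
    rcases l with l | j
    · have h2 := hz (Sum.inl l)
      simp only [Sum.elim_inl] at h2 ⊢
      rw [valP_lift0] at h2 ⊢
      exact h2
    · have h2 := hz (Sum.inr (Fin.castLE hs j))
      simp only [Sum.elim_inr] at h2 ⊢
      rw [valP_gen] at h2 ⊢
      exact h2
  rcases hB with ⟨hB, he⟩ | he
  · refine ⟨1 - 1 / 25, by norm_num, by norm_num, hred _ ?_⟩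
    intro R k _ _ _ φ r m L Φ d' e' hΦ d hk V hV hcard
    refine dens_family φ Φ d' e' hΦ (fun j : Fin κ => d (Fin.castLE hs j))
      (fun j => e (Fin.castLE hs j)) (fun j => he _ j.2) hκ hk V hV (hcard.trans ?_)
    exact mul_le_mul_of_nonneg_right hB (by positivity)
  · set B' : ℝ := max B 0 with hB'
    set K : ℕ := max 2 (2 * ⌈3 * B'⌉₊) with hK
    have hB0 : 0 ≤ B' := le_max_right _ _
    have hKe : Even K := by
      rw [hK]
      rcases max_choice 2 (2 * ⌈3 * B'⌉₊) with h | h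
      · rw [h]; exact even_two
      · rw [h]; exact even_two_mul _
    have hK6 : 6 * B' ≤ K := by
      have h1 : ((2 * ⌈3 * B'⌉₊ : ℕ) : ℝ) ≤ K := by exact_mod_cast le_max_right _ _
      have h2 : 3 * B' ≤ ⌈3 * B'⌉₊ := Nat.le_ceil _
      push_cast at h1
      linarith
    have hKe' : ∀ j : Fin s, j.1 < κ → K ≤ e j + 2 := by
      intro j hj
      have h1 := he j hj
      have h2 : 6 * B' ≤ e j := by
        rcases max_choice B 0 with h | h
        · rw [hB', h]; exact h1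
        · rw [hB', h]; simp
      rw [hK]
      apply max_le (by omega)
      have h3 : (⌈3 * B'⌉₊ : ℝ) < 3 * B' + 1 := Nat.ceil_lt_add_one (by linarith)
      have h4 : ((2 * ⌈3 * B'⌉₊ : ℕ) : ℝ) < ((e j + 2 : ℕ) : ℝ) := by
        push_cast
        linarith
      exact (by exact_mod_cast h4 : 2 * ⌈3 * B'⌉₊ < e j + 2).le
    have hexp0 := Real.exp_pos (-((K : ℝ) / 3))
    have hexp1 : Real.exp (-((K : ℝ) / 3)) ≤ 1 := by
      rw [Real.exp_le_one_iff]
      have : (0 : ℝ) ≤ K := Nat.cast_nonneg _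
      linarith
    refine ⟨1 - Real.exp (-((K : ℝ) / 3)) / 2, by linarith, by linarith, hred _ ?_⟩
    intro R k _ _ _ φ r m L Φ d' e' hΦ d hk V hV hcard
    refine dens_familyG φ Φ d' e' hΦ (fun j : Fin κ => d (Fin.castLE hs j))
      (fun j => e (Fin.castLE hs j)) K (le_max_left _ _) hKe (fun j => hKe' _ j.2) hκ B' hB0 hK6
      V hV (hcard.trans ?_)
    exact mul_le_mul_of_nonneg_right (le_max_left _ _) (by positivity)

end Pool.Agent.N890.FD
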