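import Pool.Agent.N890.FD.MainK
import Pool.Agent.N890.FD.MainQ
import Pool.Agent.N890.FD.Dens

/-! FD (helper890): Selmer sets of complete intersections. -/

set_option autoImplicit false

namespace Pool.Agent.N890.FD

open MvPolynomial NumberField Pool.Agent.H901R3.MS WeierstrassCurve IsDedekindDomain
open Pool.Agent.TH954 Pool.Agent.TH942 Pool.Agent.N89.CI Pool.Agent.W659.FK

open scoped LinearAlgebra.Projectivization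

/-- multiplication of the level by a constant -/
theorem level_mul (M₀ : ℕ) (hM₀ : 1 ≤ M₀) (δ : ℝ) (hδ : 0 < δ) (hδ1 : δ ≤ 1) :
    ∃ H₁ : ℕ, ∀ H : ℕ, H₁ ≤ H → ∀ L : ℕ, 1 ≤ L → Real.log L ≤ Real.log H ^ (1 - δ) →
      Real.log ((M₀ * 2 * L : ℕ) : ℝ) ≤ Real.log H ^ (1 - δ / 2) := by
  obtain ⟨x₀, hx1, hx⟩ := ev_add (Real.log (M₀ * 2)) δ (by
    apply Real.log_nonneg
    have : (1 : ℝ) ≤ M₀ := by exact_mod_cast hM₀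
    linarith) hδ hδ1
  refine ⟨⌈Real.exp x₀⌉₊, fun H hH L hL hlog => ?_⟩
  have hexp : Real.exp x₀ ≤ H := (Nat.le_ceil _).trans (by exact_mod_cast hH)
  have hH0 : (0 : ℝ) < H := (Real.exp_pos _).trans_le hexp
  have h1 : x₀ ≤ Real.log H := (Real.le_log_iff_exp_le hH0).2 hexp
  have hM0 : (0 : ℝ) < M₀ * 2 := by
    have : (1 : ℝ) ≤ M₀ := by exact_mod_cast hM₀
    linarith
  have hL0 : (0 : ℝ) < L := by exact_mod_cast hL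
  push_cast
  rw [Real.log_mul hM0.ne' hL0.ne']
  have := hx _ h1
  linarith

/-- Selmer sets over a number field -/
theorem ciSelK (r m κ s : ℕ) (hκ : 1 ≤ κ) (hs : κ ≤ s) (a b : Fin r → ℤ)
    (hab : ∀ i, a i * b i = 0 ∧ (a i ≠ 0 ∨ b i ≠ 0))
    (K : Type) [Field K] [NumberField K] (M₀ : ℕ) (hM₀ : 1 ≤ M₀)
    (hM : ∀ i, ShaKilledBy (sw (a i : K) (b i : K)) M₀)
    (N : ℕ) (ω : Module.Basis (Fin N) ℤ (𝓞 K))
    {L' : Type} (Φ : L' → Pol0 (𝓞 K) r m)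
    (d' : L' → Fin r → ℕ) (e' : L' → ℕ) (hΦ : ∀ l, MHomog0 (Φ l) (d' l) (e' l))
    (B : ℝ) (p₁ : ℕ)
    (hpts : ∀ (k : Type) [Field k] [Fintype k] (p : ℕ), p.Prime → p₁ ≤ p →
      (Fintype.card k = p ∨ Fintype.card k = p ^ 2) → ∀ φ : 𝓞 K →+* k, Function.Surjective φ →
      ∀ V : Fin r → Fin 3 → k, (∀ i, Pool.Agent.W659.FD.OnE (a i) (b i) (V i)) →
        (({P : ℙ k (Fin (m + 1) → k) | ∀ l, val0 φ (Φ l) V P.rep = 0}.ncard : ℕ) : ℝ) ≤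
          B * (Fintype.card k : ℝ) ^ κ)
    (d : Fin s → Fin r → ℕ) (e : Fin s → ℕ)
    (he : B ≤ 3 / 2 ∧ (∀ j : Fin s, j.1 < κ → 2 ≤ e j) ∨
      ∀ j : Fin s, j.1 < κ → 6 * B ≤ e j) :
    ∃ c₀ : ℝ, 0 < c₀ ∧ ∃ δ : ℝ, 0 < δ ∧ ∃ H₀ : ℕ, ∀ H : ℕ, H₀ ≤ H →
      ∃ n : ℕ, 1 ≤ n ∧ Real.log n ≤ Real.log H ^ (1 - δ) ∧
      (({c : Idx m d e × Fin N → ℤ | (∀ x, |c x| ≤ H) ∧
        ((∃ (P : ∀ i, SPt (a i : K) (b i : K)) (T : Fin (m + 1) → K), T ≠ 0 ∧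
          ∀ l : L' ⊕ Fin s, valP (algebraMap (𝓞 K) K)
            (Sum.elim (fun l => lift0 (Idx m d e) (Φ l)) (gen (𝓞 K) m d e) l)
            (fun i => crd (P i)) T (fun x => ((∑ i, c (x, i) • ω i : 𝓞 K) : K)) = 0) ∨
        ∃ ξ, IsSel (algebraMap (𝓞 K) K) a b
          (Sum.elim (fun l => lift0 (Idx m d e) (Φ l)) (gen (𝓞 K) m d e))
          (fun x => ((∑ i, c (x, i) • ω i : 𝓞 K) : K)) n ξ)}.ncard : ℕ) : ℝ) ≤
      (2 * (H : ℝ) + 1) ^ (Fintype.card (Idx m d e) * N) *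
        Real.exp (-c₀ * (Real.log H / Real.log (Real.log H))) := by
  classical
  obtain ⟨θ, hθ0, hθ1, hdens⟩ := dens_all hκ hs e B he
  obtain ⟨c₀, hc₀, δ, hδ, hδ1, H₀, hH⟩ := mainS (ι := Idx m d e) a b hab K N ω
    (L' := L' ⊕ Fin s)
    (Sum.elim (fun l => lift0 (Idx m d e) (Φ l)) (gen (𝓞 K) m d e)) (Sum.elim d' d)
    (Sum.elim e' e) (mhomog_family Φ d' e' hΦ d e) θ hθ0 hθ1
    (p₁ + 37) (by
      intro p hp hp1 _ k _ _ hk φ hφ V hV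
      have h1 := hpts k p hp (by omega) hk φ hφ V hV
      have h3 : 37 ≤ Nat.card k := by
        rw [Nat.card_eq_fintype_card]
        rcases hk with h | h
        · rw [h]; omega
        · rw [h]; nlinarith
      have h2 := hdens φ Φ d' e' hΦ d h3 V (fun i => (hV i).1)
        (by rwa [Nat.card_eq_fintype_card])
      rwa [Nat.card_eq_fintype_card] at h2)
  obtain ⟨H₁, hH₁⟩ := level_mul M₀ hM₀ δ hδ hδ1
  refine ⟨c₀, hc₀, δ / 2, by linarith, max H₀ H₁, fun H hH' => ?_⟩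
  obtain ⟨L, hL1, hL2, hL3⟩ := hH H ((le_max_left _ _).trans hH')
  refine ⟨M₀ * 2 * L, Nat.mul_pos (Nat.mul_pos hM₀ two_pos) hL1,
    hH₁ H ((le_max_right _ _).trans hH') L hL1 hL2, le_trans ?_ hL3⟩
  have hfin : (SelG (algebraMap (𝓞 K) K) ω a b
      (Sum.elim (fun l => lift0 (Idx m d e) (Φ l)) (gen (𝓞 K) m d e)) L H).Finite := by
    have : {c : Idx m d e × Fin N → ℤ | ∀ j, c j ∈ Set.Icc (-(H : ℤ)) (H : ℤ)}.Finite :=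
      Set.Finite.pi' fun _ => Set.finite_Icc _ _
    apply Set.Finite.subset this
    rintro c ⟨hc, -⟩ j
    exact ⟨(abs_le.1 (hc j)).1, (abs_le.1 (hc j)).2⟩
  refine Nat.cast_le.2 (Set.ncard_le_ncard ?_ hfin)
  rintro c ⟨hc, h | ⟨ξ, hξ⟩⟩
  · obtain ⟨P, T, hT, h0⟩ := h
    exact ⟨hc, P, isLoc_of_point _ a b _ _ P T hT h0 L⟩
  · exact ⟨hc, desc _ a b _ _ hM L ξ hξ⟩

/-- Selmer sets over `ℚ` -/
theorem ciSelQ (r m κ s : ℕ) (hκ : 1 ≤ κ) (hs : κ ≤ s) (a b : Fin r → ℤ)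
    (hdisc : ∀ i, 4 * a i ^ 3 + 27 * b i ^ 2 ≠ 0) (M₁ D₁ : ℕ) (hM₁ : 0 < M₁) (hD₁ : 0 < D₁)
    (hss : ∀ i, ∀ p : ℕ, p.Prime → ¬ p ∣ D₁ → M₁ ∣ p + 1 →
      Nat.card {z : ZMod p × ZMod p // z.2 ^ 2 = z.1 ^ 3 + a i * z.1 + b i} = p)
    (M₀ : ℕ) (hM₀ : 1 ≤ M₀)
    (hM : ∀ i, ShaKilledBy (sw (a i : ℚ) (b i : ℚ)) M₀) {L' : Type} (Φ : L' → Pol0 ℤ r m)
    (d' : L' → Fin r → ℕ) (e' : L' → ℕ) (hΦ : ∀ l, MHomog0 (Φ l) (d' l) (e' l))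
    (B : ℝ) (M p₁ : ℕ) (hM1 : 0 < M)
    (hpts : ∀ (p : ℕ) [Fact p.Prime], p₁ ≤ p → M ∣ p + 1 →
      ∀ V : Fin r → Fin 3 → ZMod p, (∀ i, Pool.Agent.W659.FD.OnE (a i) (b i) (V i)) →
        (({P : ℙ (ZMod p) (Fin (m + 1) → ZMod p) |
          ∀ l, val0 (Int.castRingHom (ZMod p)) (Φ l) V P.rep = 0}.ncard : ℕ) : ℝ) ≤
          B * (p : ℝ) ^ κ)
    (d : Fin s → Fin r → ℕ) (e : Fin s → ℕ)
    (he : B ≤ 3 / 2 ∧ (∀ j : Fin s, j.1 < κ → 2 ≤ e j) ∨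
      ∀ j : Fin s, j.1 < κ → 6 * B ≤ e j)
    (ε : ℝ) (hε : 0 < ε) :
    ∃ δ : ℝ, 0 < δ ∧ ∃ H₀ : ℕ, ∀ H : ℕ, H₀ ≤ H →
      ∃ n : ℕ, 1 ≤ n ∧ Real.log n ≤ Real.log H ^ (1 - δ) ∧
      (({c : Idx m d e → ℤ | (∀ x, |c x| ≤ H) ∧
        ((∃ (P : ∀ i, SPt (a i : ℚ) (b i : ℚ)) (T : Fin (m + 1) → ℚ), T ≠ 0 ∧
          ∀ l : L' ⊕ Fin s, valP (Int.castRingHom ℚ)
            (Sum.elim (fun l => lift0 (Idx m d e) (Φ l)) (gen ℤ m d e) l)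
            (fun i => crd (P i)) T (fun x => (c x : ℚ)) = 0) ∨
        ∃ ξ, IsSel (Int.castRingHom ℚ) a b
          (Sum.elim (fun l => lift0 (Idx m d e) (Φ l)) (gen ℤ m d e))
          (fun x => (c x : ℚ)) n ξ)}.ncard : ℕ) : ℝ) ≤
      (H : ℝ) ^ ((Fintype.card (Idx m d e) : ℝ) - 1 / 5 + ε) := by
  classical
  have hne := nonempty_idx m d e (hκ.trans hs)
  obtain ⟨θ, hθ0, hθ1, hdens⟩ := dens_all hκ hs e B he
  obtain ⟨δ, hδ, hδ1, H₀, hH⟩ := mainSQ r m (Idx m d e) a b (M₁ * M) (D₁ * (p₁ + 37).factorial)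
    (Nat.mul_pos hM₁ hM1) (Nat.mul_pos hD₁ (Nat.factorial_pos _)) hdisc (by
      intro i p hp hpD hM'
      exact hss i p hp (fun h => hpD (h.mul_right _)) ((Dvd.intro M rfl).trans hM'))
    (L := L' ⊕ Fin s)
    (Sum.elim (fun l => lift0 (Idx m d e) (Φ l)) (gen ℤ m d e)) (Sum.elim d' d) (Sum.elim e' e)
    (mhomog_family Φ d' e' hΦ d e) (1 - θ) (by linarith) (by linarith) (by
      intro p hp hpD hM' V hV
      have hp' : p₁ + 37 < p := by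
        by_contra h
        push Not at h
        exact hpD (Dvd.dvd.mul_left (Nat.dvd_factorial hp.out.pos h) _)
      have h1 := hpts p (by omega) ((Dvd.intro_left M₁ rfl).trans hM') V hV
      have h2 := hdens (Int.castRingHom (ZMod p)) Φ d' e' hΦ d
        (by rw [Nat.card_zmod]; omega) V (fun i => (hV i).1) (by rwa [Nat.card_zmod])
      rw [Nat.card_zmod] at h2
      rwa [sub_sub_cancel]) ε hε
  obtain ⟨H₁, hH₁⟩ := level_mul M₀ hM₀ δ hδ hδ1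
  refine ⟨δ / 2, by linarith, max H₀ H₁, fun H hH' => ?_⟩
  obtain ⟨L, hL1, hL2, hL3⟩ := hH H ((le_max_left _ _).trans hH')
  refine ⟨M₀ * 2 * L, Nat.mul_pos (Nat.mul_pos hM₀ two_pos) hL1,
    hH₁ H ((le_max_right _ _).trans hH') L hL1 hL2, le_trans ?_ hL3⟩
  have hfin : {t : Idx m d e → ℤ | (∀ x, |t x| ≤ (H : ℤ)) ∧ ∃ y : ∀ i, SPt (a i : ℚ) (b i : ℚ),
        IsLoc (Int.castRingHom ℚ) a b
          (Sum.elim (fun l => lift0 (Idx m d e) (Φ l)) (gen ℤ m d e))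
          (fun x => (t x : ℚ)) L y}.Finite := by
    have : {c : Idx m d e → ℤ | ∀ j, c j ∈ Set.Icc (-(H : ℤ)) (H : ℤ)}.Finite :=
      Set.Finite.pi' fun _ => Set.finite_Icc _ _
    apply Set.Finite.subset this
    rintro c ⟨hc, -⟩ j
    exact ⟨(abs_le.1 (hc j)).1, (abs_le.1 (hc j)).2⟩
  refine Nat.cast_le.2 (Set.ncard_le_ncard ?_ hfin)
  rintro c ⟨hc, h | ⟨ξ, hξ⟩⟩
  · obtain ⟨P, T, hT, h0⟩ := h
    exact ⟨hc, P, isLoc_of_point _ a b _ _ P T hT h0 L⟩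
  · exact ⟨hc, desc _ a b _ _ hM L ξ hξ⟩

end Pool.Agent.N890.FD
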