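import Mathlib

/-! FD (helper890): the number of points of a hypersurface over a finite field. -/

set_option autoImplicit false

namespace Pool.Agent.N890.FD

open Finset MvPolynomial

open scoped LinearAlgebra.Projectivization

theorem aff_count {k : Type} [Field k] [Fintype k] [DecidableEq k] (n : ℕ)
    (f : MvPolynomial (Fin (n + 1)) k) (hf0 : f ≠ 0) :
    (((univ.filter fun v : Fin (n + 1) → k => eval v f = 0).card : ℕ) : ℝ) ≤
      f.totalDegree * (Fintype.card k : ℝ) ^ n := by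
  have h := schwartz_zippel_totalDegree hf0 (univ : Finset k)
  have hk : 0 < Fintype.card k := Fintype.card_pos
  have hkR : (0 : ℝ) < Fintype.card k := by exact_mod_cast hk
  rw [Fintype.piFinset_univ, card_univ] at h
  have h1 : (((univ.filter fun v : Fin (n + 1) → k => eval v f = 0).card : ℕ) : ℝ) /
      (Fintype.card k : ℝ) ^ (n + 1) ≤ (f.totalDegree : ℝ) / (Fintype.card k : ℝ) := by
    have h2 : ((((univ.filter fun v : Fin (n + 1) → k => eval v f = 0).card : ℚ≥0) /
      (Fintype.card k : ℚ≥0) ^ (n + 1) : ℚ≥0) : ℝ) ≤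
        (((f.totalDegree : ℚ≥0) / (Fintype.card k : ℚ≥0) : ℚ≥0) : ℝ) := by
      exact_mod_cast h
    push_cast at h2
    exact h2
  rw [div_le_div_iff₀ (by positivity) hkR] at h1
  have h2 : (f.totalDegree : ℝ) * (Fintype.card k : ℝ) ^ (n + 1) =
      (f.totalDegree * (Fintype.card k : ℝ) ^ n) * (Fintype.card k : ℝ) := by ring
  rw [h2] at h1
  exact le_of_mul_le_mul_right h1 hkR

theorem eval_smul {k σ : Type} [Field k] [Fintype σ] (g : ℕ) (f : MvPolynomial σ k)
    (hf : f.IsHomogeneous g) (u : k) (v : σ → k) : eval (u • v) f = u ^ g * eval v f := by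
  rw [eval_eq', eval_eq', Finset.mul_sum]
  refine Finset.sum_congr rfl fun d hd => ?_
  have h1 := hf (mem_support_iff.1 hd)
  rw [Finsupp.weight_apply, Finsupp.sum_fintype _ _ (fun _ => by simp)] at h1
  have h2 : ∏ i, (u • v) i ^ d i = u ^ g * ∏ i, v i ^ d i := by
    have h3 : ∑ i, d i = g := by simpa using h1
    rw [← h3, ← Finset.prod_pow_eq_pow_sum, ← Finset.prod_mul_distrib]
    refine Finset.prod_congr rfl fun i _ => ?_
    rw [Pi.smul_apply, smul_eq_mul, mul_pow]
  rw [h2]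
  ring

theorem hyp_count_field {k : Type} [Field k] [Fintype k] (n g : ℕ)
    (f : MvPolynomial (Fin (n + 2)) k) (hf : f.IsHomogeneous g) (hf0 : f ≠ 0) :
    (({P : ℙ k (Fin (n + 2) → k) | eval P.rep f = 0}.ncard : ℕ) : ℝ) ≤
      2 * g * (Fintype.card k : ℝ) ^ n := by
  classical
  have hdeg : f.totalDegree ≤ g := hf.totalDegree_le
  have : Finite (ℙ k (Fin (n + 2) → k)) := by
    unfold Projectivization
    infer_instance
  have hk2 : 2 ≤ Fintype.card k := Fintype.one_lt_card
  have hkR : (2 : ℝ) ≤ Fintype.card k := by exact_mod_cast hk2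
  set N : ℕ := {P : ℙ k (Fin (n + 2) → k) | eval P.rep f = 0}.ncard with hN
  have h1 : N * (Fintype.card k - 1) ≤
      (univ.filter fun v : Fin (n + 2) → k => eval v f = 0).card := by
    have h2 : Nat.card ({P : ℙ k (Fin (n + 2) → k) | eval P.rep f = 0} × kˣ) =
        N * (Fintype.card k - 1) := by
      rw [Nat.card_prod, Nat.card_coe_set_eq, Nat.card_eq_fintype_card (α := kˣ),
        Fintype.card_units]
    rw [← h2]
    have h3 : (univ.filter fun v : Fin (n + 2) → k => eval v f = 0).card =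
        Nat.card {v : Fin (n + 2) → k // eval v f = 0} := by
      rw [Nat.card_eq_fintype_card, Fintype.card_subtype]
    rw [h3]
    refine Nat.card_le_card_of_injective (fun x => ⟨(x.2 : k) • x.1.1.rep, ?_⟩) ?_
    · rw [eval_smul g f hf, x.1.2, mul_zero]
    · rintro ⟨⟨P, hP⟩, u⟩ ⟨⟨P', hP'⟩, u'⟩ h
      have h4 : (u : k) • P.rep = (u' : k) • P'.rep := congrArg Subtype.val h
      have h5 : P = P' := by
        rw [← P.mk_rep, ← P'.mk_rep, Projectivization.mk_eq_mk_iff']
        refine ⟨(u : k)⁻¹ * u', ?_⟩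
        rw [mul_smul, ← h4, smul_smul, inv_mul_cancel₀ u.ne_zero, one_smul]
      subst h5
      have h6 : (u : k) = u' := smul_left_injective k P.rep_nonzero h4
      have h7 : u = u' := Units.ext h6
      rw [h7]
  have h2 := aff_count (n + 1) f hf0
  have h3 : (N : ℝ) * ((Fintype.card k : ℝ) - 1) ≤ g * (Fintype.card k : ℝ) ^ (n + 1) := by
    have h4 : ((N * (Fintype.card k - 1) : ℕ) : ℝ) ≤ g * (Fintype.card k : ℝ) ^ (n + 1) := by
      refine (Nat.cast_le.2 h1).trans (h2.trans ?_)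
      exact mul_le_mul_of_nonneg_right (by exact_mod_cast hdeg) (by positivity)
    rw [Nat.cast_mul, Nat.cast_sub (by omega)] at h4
    simpa using h4
  have h5 : (N : ℝ) * ((Fintype.card k : ℝ) - 1) ≤
      (2 * g * (Fintype.card k : ℝ) ^ n) * ((Fintype.card k : ℝ) - 1) := by
    refine h3.trans ?_
    have h6 : (0 : ℝ) ≤ g * (Fintype.card k : ℝ) ^ n := by positivity
    have h7 : (g : ℝ) * (Fintype.card k : ℝ) ^ (n + 1) =
      (g * (Fintype.card k : ℝ) ^ n) * (Fintype.card k : ℝ) := by ring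
    rw [h7]
    nlinarith
  exact le_of_mul_le_mul_right h5 (by linarith)

/-- a hypersurface over `ℤ` modulo large primes -/
theorem hyp_count (n g : ℕ) (f : MvPolynomial (Fin (n + 2)) ℤ) (hf : f.IsHomogeneous g)
    (hf0 : f ≠ 0) : ∃ p₁ : ℕ, ∀ (p : ℕ) [Fact p.Prime], p₁ ≤ p →
    (({P : ℙ (ZMod p) (Fin (n + 2) → ZMod p) |
      eval₂ (Int.castRingHom (ZMod p)) P.rep f = 0}.ncard : ℕ) : ℝ) ≤ 2 * g * (p : ℝ) ^ n := by
  obtain ⟨x, hx⟩ := MvPolynomial.support_nonempty.2 hf0
  refine ⟨(coeff x f).natAbs + 1, fun p _ hp => ?_⟩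
  have h1 : map (Int.castRingHom (ZMod p)) f ≠ 0 := by
    intro h
    have h2 : coeff x (map (Int.castRingHom (ZMod p)) f) = 0 := by rw [h, coeff_zero]
    rw [coeff_map] at h2
    have h3 : (p : ℤ) ∣ coeff x f := (ZMod.intCast_zmod_eq_zero_iff_dvd _ p).1 h2
    have h4 := Nat.le_of_dvd (Int.natAbs_pos.2 (mem_support_iff.1 hx)) (Int.natCast_dvd.1 h3)
    omega
  have h2 := hyp_count_field n g (map (Int.castRingHom (ZMod p)) f) (hf.map _) h1
  rw [ZMod.card] at h2
  refine le_trans (le_of_eq ?_) h2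
  congr 2
  ext P
  simp only [Set.mem_ofPred_eq]
  rw [eval_map]

end Pool.Agent.N890.FD
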