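import Pool.Agent.N89.CI.CIQ

/-! FD (helper890): the sieve inequality of arbitrary order, and the local density for families
whose fibres have at most `B q ^ κ` points. -/

set_option autoImplicit false

namespace Pool.Agent.N890.FD

open Finset MvPolynomial Pool.Agent.N89.CI

open scoped LinearAlgebra.Projectivization

/-- truncated binomial series -/
noncomputable def Rk (x : ℝ) (k M : ℕ) : ℝ := ∑ j ∈ range (k + 1), (-1) ^ j * (M.choose j : ℝ) * x ^ j

theorem Rk_succ (x : ℝ) (k M : ℕ) : Rk x (k + 1) (M + 1) = Rk x (k + 1) M - x * Rk x k M := by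
  unfold Rk
  rw [Finset.sum_range_succ' _ (k + 1), Finset.sum_range_succ' _ (k + 1), Finset.mul_sum]
  have h1 : ∀ j ∈ range (k + 1), (-1 : ℝ) ^ (j + 1) * ((M + 1).choose (j + 1) : ℝ) * x ^ (j + 1) =
      (-1) ^ (j + 1) * (M.choose (j + 1) : ℝ) * x ^ (j + 1) -
        x * ((-1) ^ j * (M.choose j : ℝ) * x ^ j) := by
    intro j _
    rw [Nat.choose_succ_succ]
    push_cast
    ring
  rw [Finset.sum_congr rfl h1, Finset.sum_sub_distrib]
  simp only [Nat.choose_zero_right]
  ring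

theorem Rk_zero_right (x : ℝ) (k : ℕ) : Rk x k 0 = 1 := by
  unfold Rk
  rw [Finset.sum_eq_single 0]
  · simp
  · intro j _ hj
    rw [Nat.choose_eq_zero_of_lt (Nat.pos_of_ne_zero hj)]
    simp
  · intro h
    simp at h

theorem Rk_bounds (x : ℝ) (h0 : 0 ≤ x) (h1 : x ≤ 1) (M : ℕ) : ∀ k : ℕ,
    (Even k → (1 - x) ^ M ≤ Rk x k M) ∧ (Odd k → Rk x k M ≤ (1 - x) ^ M) := by
  induction M with
  | zero =>
    intro k
    rw [Rk_zero_right, pow_zero]
    exact ⟨fun _ => le_rfl, fun _ => le_rfl⟩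
  | succ M ih =>
    intro k
    rcases k with _ | k
    · refine ⟨fun _ => ?_, fun h => absurd h (by decide)⟩
      have h2 : Rk x 0 (M + 1) = 1 := by
        unfold Rk
        simp
      rw [h2]
      exact pow_le_one₀ (by linarith) (by linarith)
    · rw [Rk_succ]
      have hp : (1 - x) ^ (M + 1) = (1 - x) ^ M - x * (1 - x) ^ M := by ring
      rw [hp]
      constructor
      · intro hk
        have hk' : Odd k := by
          rcases Nat.even_or_odd k with h | h
          · exact absurd hk (by simpa [Nat.even_add_one] using h)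
          · exact h
        have h3 := (ih (k + 1)).1 hk
        have h4 := mul_le_mul_of_nonneg_left ((ih k).2 hk') h0
        linarith
      · intro hk
        have hk' : Even k := by
          rcases Nat.even_or_odd k with h | h
          · exact h
          · exact absurd hk (by simpa [Nat.odd_add_one] using h)
        have h3 := (ih (k + 1)).2 hk
        have h4 := mul_le_mul_of_nonneg_left ((ih k).1 hk') h0
        linarith

theorem Rk_lower (x : ℝ) (h0 : 0 ≤ x) (h1 : x ≤ 1) (M k : ℕ) (hk : Odd k) :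
    (1 - x) ^ M - (M.choose (k + 1) : ℝ) * x ^ (k + 1) ≤ Rk x k M := by
  have hk' : Even (k + 1) := hk.add_one
  have h2 := (Rk_bounds x h0 h1 M (k + 1)).1 hk'
  have h3 : Rk x (k + 1) M = Rk x k M + (M.choose (k + 1) : ℝ) * x ^ (k + 1) := by
    unfold Rk
    rw [Finset.sum_range_succ _ (k + 1), hk'.neg_one_pow, one_mul]
  linarith

theorem exp_lower (x : ℝ) (h0 : 0 ≤ x) (h1 : x ≤ 1 / 2) : Real.exp (-(2 * x)) ≤ 1 - x := by
  have h2 : 0 < 1 - x := by linarith
  have h3 : (1 - x)⁻¹ ≤ Real.exp (2 * x) := by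
    have h4 := Real.add_one_le_exp (2 * x)
    refine le_trans ?_ h4
    rw [inv_le_iff_one_le_mul₀ h2]
    nlinarith
  rw [Real.exp_neg]
  exact inv_le_of_inv_le₀ h2 h3

/-- the numerical estimate -/
theorem num (B Q : ℝ) (hB : 0 ≤ B) (hQ : 2 ≤ Q) (M K : ℕ) (hM : (M : ℝ) ≤ B * Q)
    (hK : 6 * B ≤ K) (hK2 : 2 ≤ K) :
    Real.exp (-(K / 3 : ℝ)) / 2 ≤ (1 - 1 / Q) ^ M - (M.choose K : ℝ) * (1 / Q) ^ K := by
  have hQ0 : 0 < Q := by linarith
  have hx0 : 0 ≤ 1 / Q := by positivity
  have hx1 : 1 / Q ≤ 1 / 2 := one_div_le_one_div_of_le (by norm_num) hQ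
  have hK0 : (0 : ℝ) ≤ K := Nat.cast_nonneg _
  -- the main term
  have h1 : Real.exp (-(K / 3 : ℝ)) ≤ (1 - 1 / Q) ^ M := by
    have h2 := pow_le_pow_left₀ (Real.exp_pos _).le (exp_lower (1 / Q) hx0 hx1) M
    refine le_trans ?_ h2
    rw [← Real.exp_nat_mul]
    apply Real.exp_le_exp.2
    have h3 : (M : ℝ) * (1 / Q) ≤ B := by
      rw [mul_one_div, div_le_iff₀ hQ0]
      exact hM
    have h4 : (M : ℝ) * -(2 * (1 / Q)) = -(2 * ((M : ℝ) * (1 / Q))) := by ring
    rw [h4]
    linarith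
  -- the error term
  have h2 : (M.choose K : ℝ) * (1 / Q) ^ K ≤ Real.exp (-(K / 3 : ℝ)) / 2 := by
    have h3 : (M.choose K : ℝ) ≤ (M : ℝ) ^ K / (K.factorial : ℝ) := Nat.choose_le_pow_div K M
    have h4 : (M : ℝ) ^ K / (K.factorial : ℝ) * (1 / Q) ^ K ≤ B ^ K / (K.factorial : ℝ) := by
      have h5 : (M : ℝ) ^ K / (K.factorial : ℝ) * (1 / Q) ^ K =
          ((M : ℝ) * (1 / Q)) ^ K / (K.factorial : ℝ) := by
        rw [mul_pow]
        ring
      rw [h5]
      apply div_le_div_of_nonneg_right _ (by positivity)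
      apply pow_le_pow_left₀ (by positivity)
      rw [mul_one_div, div_le_iff₀ hQ0]
      exact hM
    have h5 : B ^ K / (K.factorial : ℝ) ≤ (Real.exp 1 / 6) ^ K := by
      have h6 := Real.pow_div_factorial_le_exp (x := (K : ℝ)) hK0 K
      have h7 : B ^ K ≤ ((K : ℝ) / 6) ^ K := pow_le_pow_left₀ hB (by linarith) K
      calc B ^ K / (K.factorial : ℝ) ≤ ((K : ℝ) / 6) ^ K / (K.factorial : ℝ) :=
            div_le_div_of_nonneg_right h7 (by positivity)
        _ = ((K : ℝ) ^ K / (K.factorial : ℝ)) / 6 ^ K := by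
            rw [div_pow]
            ring
        _ ≤ Real.exp K / 6 ^ K := div_le_div_of_nonneg_right h6 (by positivity)
        _ = (Real.exp 1 / 6) ^ K := by
            rw [div_pow, ← Real.exp_nat_mul, mul_one]
    have h6 : (Real.exp 1 / 6) ^ K ≤ Real.exp (-(K / 3 : ℝ)) / 2 := by
      have h7 : Real.exp (-(K / 3 : ℝ)) = Real.exp (-(1 / 3 : ℝ)) ^ K := by
        rw [← Real.exp_nat_mul]
        congr 1
        ring
      have he1 := Real.exp_one_lt_d9
      have he0 := Real.exp_pos (1 : ℝ)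
      -- `exp (-1/3) ≥ 2/3`
      have h8 : (2 / 3 : ℝ) ≤ Real.exp (-(1 / 3 : ℝ)) := by
        have := Real.add_one_le_exp (-(1 / 3 : ℝ))
        linarith
      have h9 : Real.exp 1 / 6 ≤ 0.4531 := by linarith
      rw [h7]
      have h10 : ∀ n : ℕ, (Real.exp 1 / 6) ^ (n + 2) ≤ Real.exp (-(1 / 3 : ℝ)) ^ (n + 2) / 2 := by
        intro n
        induction n with
        | zero =>
          have h11 : (Real.exp 1 / 6) ^ 2 ≤ 0.4531 ^ 2 :=
            pow_le_pow_left₀ (by positivity) h9 2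
          have h12 : (0.7 : ℝ) ≤ Real.exp (-(1 / 3 : ℝ)) := by
            have h13 : Real.exp (1 / 3 : ℝ) ≤ 1.4 := by
              have h14 := Real.exp_bound' (x := (1 / 3 : ℝ)) (by norm_num) (by norm_num)
                (n := 4) (by norm_num)
              refine h14.trans ?_
              norm_num [Finset.sum_range_succ, Nat.factorial]
            rw [Real.exp_neg]
            rw [le_inv_comm₀ (by norm_num) (Real.exp_pos _)]
            refine h13.trans (by norm_num)
          have h15 : (0.7 : ℝ) ^ 2 ≤ Real.exp (-(1 / 3 : ℝ)) ^ 2 :=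
            pow_le_pow_left₀ (by norm_num) h12 2
          norm_num at h11 h15 ⊢
          linarith
        | succ n ih =>
          rw [pow_succ, pow_succ (Real.exp (-(1 / 3 : ℝ)))]
          have h11 : Real.exp 1 / 6 ≤ Real.exp (-(1 / 3 : ℝ)) := by linarith
          calc (Real.exp 1 / 6) ^ (n + 2) * (Real.exp 1 / 6)
              ≤ Real.exp (-(1 / 3 : ℝ)) ^ (n + 2) / 2 * Real.exp (-(1 / 3 : ℝ)) :=
                mul_le_mul ih h11 (by positivity) (by positivity)
            _ = _ := by ring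
      obtain ⟨n, rfl⟩ := Nat.exists_eq_add_of_le' hK2
      exact h10 n
    calc (M.choose K : ℝ) * (1 / Q) ^ K ≤ (M : ℝ) ^ K / (K.factorial : ℝ) * (1 / Q) ^ K :=
          mul_le_mul_of_nonneg_right h3 (by positivity)
      _ ≤ B ^ K / (K.factorial : ℝ) := h4
      _ ≤ (Real.exp 1 / 6) ^ K := h5
      _ ≤ _ := h6
  linarith

/-- the sieve inequality of order `K - 1` -/
theorem bonfG {Pt C : Type} [Fintype Pt] [Fintype C] (R : Pt → C → Prop) (Q : ℝ) (hQ : 2 ≤ Q)
    (B : ℝ) (hB : 0 ≤ B) (K : ℕ) (hK : 6 * B ≤ K) (hK2 : 2 ≤ K) (hKe : Even K)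
    (hm : (Nat.card Pt : ℝ) ≤ B * Q)
    (h : ∀ j : ℕ, 1 ≤ j → j < K → ∀ f : Fin j ↪ Pt,
      (Nat.card {c // ∀ i, R (f i) c} : ℝ) * Q ^ j = Nat.card C) :
    (({c : C | ∃ P, R P c}.ncard : ℕ) : ℝ) ≤
      (1 - Real.exp (-(K / 3 : ℝ)) / 2) * Nat.card C := by
  classical
  have hQ0 : 0 < Q := by linarith
  obtain ⟨k, rfl⟩ : ∃ k, K = k + 1 := ⟨K - 1, by omega⟩
  have hkodd : Odd k := by
    rcases Nat.even_or_odd k with h1 | h1
    · exact absurd hKe (by simpa [Nat.even_add_one] using h1)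
    · exact h1
  set N : C → ℕ := fun c => Nat.card {P // R P c} with hN
  set M : ℕ := Nat.card Pt with hM
  have hsum : ∀ j : ℕ, j ≤ k → (∑ c : C, ((N c).choose j : ℝ)) =
      (M.choose j : ℝ) * (1 / Q) ^ j * Nat.card C := by
    intro j hjk
    rcases Nat.eq_zero_or_pos j with hj | hj
    · subst hj
      simp
    have h1 := sum_desc R j
    have h2 : (∑ c : C, ((N c).descFactorial j : ℝ)) =
        ∑ f : Fin j ↪ Pt, (Nat.card {c // ∀ i, R (f i) c} : ℝ) := by
      exact_mod_cast h1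
    have h3 : (∑ c : C, ((N c).descFactorial j : ℝ)) * Q ^ j =
        (M.descFactorial j : ℝ) * Nat.card C := by
      rw [h2, Finset.sum_mul, Finset.sum_congr rfl fun f _ => h j hj (by omega) f,
        Finset.sum_const, nsmul_eq_mul, Finset.card_univ, Fintype.card_embedding_eq,
        Fintype.card_fin, hM, Nat.card_eq_fintype_card (α := Pt)]
    have h4 : ∀ n : ℕ, ((n.descFactorial j : ℕ) : ℝ) = (j.factorial : ℝ) * (n.choose j : ℝ) := by
      intro n
      rw [Nat.descFactorial_eq_factorial_mul_choose]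
      push_cast
      ring
    rw [Finset.sum_congr rfl fun c _ => h4 (N c), ← Finset.mul_sum, h4 M] at h3
    have hfac : (j.factorial : ℝ) ≠ 0 := by positivity
    have hQj : Q ^ j ≠ 0 := by positivity
    have h5 : (j.factorial : ℝ) * ((∑ c : C, ((N c).choose j : ℝ)) * Q ^ j) =
        (j.factorial : ℝ) * ((M.choose j : ℝ) * Nat.card C) := by linarith
    have h6 := mul_left_cancel₀ hfac h5
    rw [one_div, inv_pow]
    field_simp
    exact h6
  have hzero : ((({c : C | ∃ P, R P c}ᶜ).ncard : ℕ) : ℝ) = ∑ c : C, (1 - 1 : ℝ) ^ (N c) := by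
    have h4 : ({c : C | ∃ P, R P c}ᶜ.ncard : ℝ) =
        ∑ c : C, if ∃ P, R P c then (0 : ℝ) else 1 := by
      have h5 : ∀ c : C, (if ∃ P, R P c then (0 : ℝ) else 1) =
          if ¬ ∃ P, R P c then (1 : ℝ) else 0 := by
        intro c
        by_cases h1 : ∃ P, R P c
        · rw [if_pos h1, if_neg (not_not.2 h1)]
        · rw [if_neg h1, if_pos h1]
      rw [Finset.sum_congr rfl fun c _ => h5 c, Set.ncard_eq_toFinset_card', Finset.sum_boole]
      congr 2
      ext c
      simp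
    rw [h4]
    refine Finset.sum_congr rfl fun c _ => ?_
    split_ifs with hc
    · have hN1 : N c ≠ 0 := by
        obtain ⟨P, hP⟩ := hc
        have : Nonempty {P // R P c} := ⟨⟨P, hP⟩⟩
        exact Nat.card_pos.ne'
      rw [sub_self, zero_pow hN1]
    · have hN0 : N c = 0 := by
        have : IsEmpty {P // R P c} := ⟨fun x => hc ⟨x.1, x.2⟩⟩
        exact Nat.card_of_isEmpty
      rw [hN0, pow_zero]
  have hge : Rk (1 / Q) k M * Nat.card C ≤ ((({c : C | ∃ P, R P c}ᶜ).ncard : ℕ) : ℝ) := by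
    rw [hzero]
    have h1 : ∑ c : C, Rk 1 k (N c) ≤ ∑ c : C, (1 - 1 : ℝ) ^ (N c) :=
      Finset.sum_le_sum fun c _ => (Rk_bounds 1 zero_le_one le_rfl (N c) k).2 hkodd
    refine le_trans (le_of_eq ?_) h1
    unfold Rk
    rw [Finset.sum_comm, Finset.sum_mul]
    refine Finset.sum_congr rfl fun j hj => ?_
    have h2 := hsum j (by have := Finset.mem_range.1 hj; omega)
    have h3 : ∑ c : C, (-1 : ℝ) ^ j * ((N c).choose j : ℝ) * 1 ^ j =
        (-1) ^ j * ∑ c : C, ((N c).choose j : ℝ) := by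
      rw [Finset.mul_sum]
      refine Finset.sum_congr rfl fun c _ => ?_
      rw [one_pow, mul_one]
    rw [h3, h2]
    ring
  have hlow : Real.exp (-(((k + 1 : ℕ) : ℝ) / 3)) / 2 ≤ Rk (1 / Q) k M := by
    have h1 := num B Q hB hQ M (k + 1) hm (by exact_mod_cast hK) hK2
    refine h1.trans ?_
    exact Rk_lower (1 / Q) (by positivity) (by
      rw [div_le_one hQ0]
      linarith) M k hkodd
  have hcompl := Set.ncard_add_ncard_compl {c : C | ∃ P, R P c}
  have hcR : (({c : C | ∃ P, R P c}.ncard : ℕ) : ℝ) +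
      ((({c : C | ∃ P, R P c}ᶜ).ncard : ℕ) : ℝ) = Nat.card C := by exact_mod_cast hcompl
  have h9 := mul_le_mul_of_nonneg_right hlow (Nat.cast_nonneg (Nat.card C) : (0 : ℝ) ≤ _)
  nlinarith

end Pool.Agent.N890.FD
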