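import Pool.Agent.TH954.SArch
import Pool.Agent.Y213.CB.PlcG
import Pool.Agent.Y213.T6.Sieve
import Pool.Agent.N89.CI.Geo

/-! FD (helper890): Selmer sets, descent to a rational point of the abelian variety, and the
reduction at a prime of the local points. -/

set_option autoImplicit false

namespace Pool.Agent.N890.FD

open MvPolynomial NumberField Pool.Agent.H901R3.MS WeierstrassCurve IsDedekindDomain
open Pool.Agent.TH954 Pool.Agent.TH942 Pool.Agent.N89.CI
open Pool.Agent.Y213.CB (hspG exists_place_g)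
open Pool.Agent.Y213.T6 (exists_redW bc_eq)

open scoped Classical in
/-- A Selmer class of level `M0 * 2 * L` differs locally by a multiple of `L` from a global point. -/
theorem desc_one {K : Type} [Field K] [NumberField K] (E : WeierstrassCurve K) {M0 : ℕ}
    (hM : ShaKilledBy E M0) (L : ℕ)
    (ξ : (AlgebraicClosure K ≃ₐ[K] AlgebraicClosure K) → AlgPt E K)
    (hξ : IsCocycle E ξ) (hξN : ∀ σ, (M0 * 2 * L) • ξ σ = 0)
    (ι : ∀ v : HeightOneSpectrum (𝓞 K),
      AlgebraicClosure K →ₐ[K] AlgebraicClosure (v.adicCompletion K))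
    (P : ∀ v : HeightOneSpectrum (𝓞 K), (E.baseChange (v.adicCompletion K)).toAffine.Point)
    (Q : ∀ v : HeightOneSpectrum (𝓞 K), AlgPt E (v.adicCompletion K))
    (hQ : ∀ v, (M0 * 2 * L) • Q v = incl E (v.adicCompletion K) (P v))
    (hloc : ∀ v σ τ, Compat (ι v) σ τ → pm E (ι v) (ξ τ) = act E σ (Q v) - Q v) :
    ∃ y : E.toAffine.Point, ∀ v, ∃ z, P v - locHom (L := v.adicCompletion K) E y = L • z := by
  have hRex : ∃ R : AlgPt E K, ∀ σ, (M0 * 2) • ξ σ = act E σ R - R := by
    have hco2 : IsCocycle E (fun σ => 2 • ξ σ) := by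
      refine ⟨fun σ τ => ?_, ?_⟩
      · change 2 • ξ (σ * τ) = 2 • ξ σ + act E σ (2 • ξ τ)
        rw [hξ.1 σ τ, ns_add, act_nsmul]
      · obtain ⟨F', hF, h⟩ := hξ.2
        exact ⟨F', hF, fun σ τ hστ => by
          change 2 • ξ σ = 2 • ξ τ
          rw [h σ τ hστ]⟩
    obtain ⟨R', hR'⟩ := hM (fun σ => 2 • ξ σ) hco2 (fun v => by
      refine ⟨ι v, 2 • Q v, fun σ τ hστ => ?_⟩
      change pm E _ (2 • ξ τ) = _
      rw [map_nsmul, hloc v σ τ hστ, act_nsmul, ns_sub]) (fun w =>
      trivial_two hξ.1 w.Completion (twoGal_inf w))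
    refine ⟨R', fun σ => ?_⟩
    rw [← hR' σ, ns_mul]
  obtain ⟨R, hR⟩ := hRex
  obtain ⟨y, hy⟩ : ∃ y : E.toAffine.Point, incl E K y = L • R := by
    refine exists_of_fixed (L := K) (L • R) (fun σ => ?_)
    have e1 : act E σ R = R + (M0 * 2) • ξ σ := by
      rw [hR σ]
      abel
    rw [act_nsmul, e1, ns_add, ← ns_mul, mul_comm L (M0 * 2), hξN, add_zero]
  refine ⟨y, fun v => ?_⟩
  have : CharZero (v.adicCompletion K) :=
    charZero_of_injective_algebraMap (algebraMap K (v.adicCompletion K)).injective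
  exact local_step (M := M0 * 2) (N := L) (Q := Q v) (ι := ι v) (R := R) (hQ v)
    (fun σ τ h => hloc v σ τ h) hR hy

/-- the zero set of the forms `G' l (·, ·; t)` has a point over `L` above the point `P` -/
def PtOver {K R : Type} [Field K] [CommRing R] (ρ : R →+* K) {r m : ℕ} {ι L' : Type}
    {a b : Fin r → ℤ} (G' : L' → Pol R r m ι) (t : ι → K) (L : Type) [Field L] [Algebra K L]
    (P : ∀ i, ((sw (a i : K) (b i : K)).baseChange L).toAffine.Point) : Prop :=
  ∃ T : Fin (m + 1) → L, T ≠ 0 ∧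
    ∀ l, valP ((algebraMap K L).comp ρ) (G' l) (fun i => crd (P i)) T
      (fun s => algebraMap K L (t s)) = 0

open scoped Classical in
/-- `ξ` is in the `N`-Selmer set of the zero set of the forms `G' l (·, ·; t)` -/
def IsSel {K R : Type} [Field K] [NumberField K] [CommRing R] (ρ : R →+* K) {r m : ℕ}
    {ι L' : Type} (a b : Fin r → ℤ) (G' : L' → Pol R r m ι) (t : ι → K) (N : ℕ)
    (ξ : ∀ i : Fin r, (AlgebraicClosure K ≃ₐ[K] AlgebraicClosure K) →
      AlgPt (sw (a i : K) (b i : K)) K) : Prop :=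
  (∀ i, IsCocycle (sw (a i : K) (b i : K)) (ξ i)) ∧ (∀ i σ, N • ξ i σ = 0) ∧
  ∀ v : HeightOneSpectrum (𝓞 K),
    ∃ (ι₀ : AlgebraicClosure K →ₐ[K] AlgebraicClosure (v.adicCompletion K))
      (P : ∀ i, ((sw (a i : K) (b i : K)).baseChange (v.adicCompletion K)).toAffine.Point)
      (Q : ∀ i, AlgPt (sw (a i : K) (b i : K)) (v.adicCompletion K)),
      PtOver ρ G' t (v.adicCompletion K) P ∧
      (∀ i, N • Q i = incl (sw (a i : K) (b i : K)) (v.adicCompletion K) (P i)) ∧
      ∀ i σ τ, Compat ι₀ σ τ → pm (sw (a i : K) (b i : K)) ι₀ (ξ i τ) =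
        act (sw (a i : K) (b i : K)) σ (Q i) - Q i

open scoped Classical in
/-- the point `y` of `A(K)` is modulo `L` everywhere locally a point of the family -/
def IsLoc {K R : Type} [Field K] [NumberField K] [CommRing R] (ρ : R →+* K) {r m : ℕ}
    {ι L' : Type} (a b : Fin r → ℤ) (G' : L' → Pol R r m ι) (t : ι → K) (L : ℕ)
    (y : ∀ i, SPt (a i : K) (b i : K)) : Prop :=
  ∀ v : HeightOneSpectrum (𝓞 K),
    ∃ P : ∀ i, ((sw (a i : K) (b i : K)).baseChange (v.adicCompletion K)).toAffine.Point,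
      PtOver ρ G' t (v.adicCompletion K) P ∧ ∀ i, ∃ z,
        P i - locHom (L := v.adicCompletion K) (sw (a i : K) (b i : K)) (y i) = L • z

open scoped Classical in
/-- a Selmer class of level `M0 * 2 * L` gives a point of `A(K)` with the local properties -/
theorem desc {K R : Type} [Field K] [NumberField K] [CommRing R] (ρ : R →+* K) {r m : ℕ}
    {ι L' : Type} (a b : Fin r → ℤ) (G' : L' → Pol R r m ι) (t : ι → K) {M0 : ℕ}
    (hM : ∀ i, ShaKilledBy (sw (a i : K) (b i : K)) M0) (L : ℕ)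
    (ξ : ∀ i : Fin r, (AlgebraicClosure K ≃ₐ[K] AlgebraicClosure K) →
      AlgPt (sw (a i : K) (b i : K)) K) (hξ : IsSel ρ a b G' t (M0 * 2 * L) ξ) :
    ∃ y : ∀ i, SPt (a i : K) (b i : K), IsLoc ρ a b G' t L y := by
  obtain ⟨h1, h2, h3⟩ := hξ
  choose ι₀ P Q hP hQ hloc using h3
  have h4 : ∀ i, ∃ y : SPt (a i : K) (b i : K), ∀ v, ∃ z,
      P v i - locHom (L := v.adicCompletion K) (sw (a i : K) (b i : K)) y = L • z := fun i =>
    desc_one (sw (a i : K) (b i : K)) (hM i) L (ξ i) (h1 i) (h2 i) ι₀ (fun v => P v i)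
      (fun v => Q v i) (fun v => hQ v i) (fun v σ τ h => hloc v i σ τ h)
  choose y hy using h4
  exact ⟨y, fun v => ⟨P v, hP v, fun i => hy i v⟩⟩

/-- reduction of a point of the fibre over a point with the coordinates `V` -/
theorem local_ptV {R K k : Type} [CommRing R] [Field K] [Field k] (v : Place K k) (ι₀ : R →+* K)
    (φ : R →+* k) (hφ : ∀ x, ι₀ x ∈ v.A ∧ v.r (ι₀ x) = φ x) {r m : ℕ} {ι : Type} [Fintype ι]
    (V : Fin r → Fin 3 → K) (W : Fin r → Fin 3 → k)
    (hVW : ∀ i, ∃ u : K, u ≠ 0 ∧ ∀ j, u * V i j ∈ v.A ∧ v.r (u * V i j) = W i j)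
    {L : Type} (G : L → Pol R r m ι) (d : L → Fin r → ℕ) (e : L → ℕ)
    (hG : ∀ l, MHomog (G l) (d l) (e l)) (t : ι → K) (ht : ∀ s, t s ∈ v.A) (T : Fin (m + 1) → K)
    (hT : T ≠ 0) (h0 : ∀ l, valP ι₀ (G l) V T t = 0) :
    ∃ T' : Fin (m + 1) → k, T' ≠ 0 ∧ ∀ l, valP φ (G l) W T' (fun s => v.r (t s)) = 0 := by
  choose u hu0 hu1 using hVW
  obtain ⟨s₀, hs0, hs1⟩ := exists_primitive v T hT
  set V' : Fin r → Fin 3 → v.A := fun i j => ⟨u i * V i j, (hu1 i j).1⟩ with hV'
  set T' : Fin (m + 1) → v.A := fun s => ⟨(T s₀)⁻¹ * T s, hs1 s⟩ with hT'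
  set t' : ι → v.A := fun s => ⟨t s, ht s⟩ with ht'
  set ψ : R →+* v.A := ι₀.codRestrict v.A (fun x => (hφ x).1) with hψ
  have hψ1 : v.A.subtype.comp ψ = ι₀ := by
    ext x
    rfl
  have hψ2 : v.ρ.comp ψ = φ := by
    ext x
    have h1 := (hφ x).2
    rw [v.r_of (hφ x).1] at h1
    exact h1
  refine ⟨fun s => v.ρ (T' s), ?_, ?_⟩
  · intro h
    have h1 := congrFun h s₀
    have h2 : T' s₀ = 1 := by
      apply Subtype.ext
      exact inv_mul_cancel₀ hs0
    simp only [h2, map_one, Pi.zero_apply] at h1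
    exact one_ne_zero h1
  · intro l
    have h1 : valP ψ (G l) V' T' t' = 0 := by
      apply Subtype.ext
      have h2 := valP_map ψ v.A.subtype (G l) V' T' t'
      have h3 : (v.A.subtype (valP ψ (G l) V' T' t')) = ((valP ψ (G l) V' T' t' : v.A) : K) := rfl
      rw [h3, hψ1] at h2
      rw [h2]
      have h4 := valP_scale ι₀ (G l) (d l) (e l) (hG l) V T t u (T s₀)⁻¹
      rw [h0 l, mul_zero] at h4
      exact h4
    have h2 := valP_map ψ v.ρ (G l) V' T' t'
    rw [h1, map_zero, hψ2] at h2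
    rw [h2]
    congr 1
    · funext i j
      have h3 := (hu1 i j).2
      rw [v.r_of (hu1 i j).1] at h3
      exact h3.symm
    · funext s
      exact v.r_of (ht s)

open scoped Classical in
/-- reduction of the local points at a prime -/
theorem local_set {K R : Type} [Field K] [NumberField K] [dK : DecidableEq K] [CommRing R]
    (ρ₀ : R →+* 𝓞 K) {r m : ℕ} {ι : Type} [Fintype ι]
    (a b : Fin r → ℤ) {L' : Type} (G' : L' → Pol R r m ι) (d : L' → Fin r → ℕ) (e : L' → ℕ)
    (hG' : ∀ l, MHomog (G' l) (d l) (e l)) (p : ℕ) (hp : p ≠ 0) (k : Type) [Field k]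
    [dk : DecidableEq k] [CharP k p] (φ : 𝓞 K →+* k) (hd : ∀ i, Disc (a i : k) (b i : k)) (n : ℕ)
    (hkill : ∀ i, ∀ P : Pt (a i : k) (b i : k), n • P = 0) :
    ∃ V : (∀ i, SPt (a i : K) (b i : K)) → Fin r → Fin 3 → k,
      (∀ y i, Pool.Agent.W659.FD.OnE (a i) (b i) (V y i)) ∧
      (∀ y κ δ : (∀ i, SPt (a i : K) (b i : K)), (∀ i, y i = κ i + n • δ i) → V y = V κ) ∧
      ∀ (y : ∀ i, SPt (a i : K) (b i : K)) (t : ι → 𝓞 K) (L : ℕ), n ∣ L →
        IsLoc ((algebraMap (𝓞 K) K).comp ρ₀) a b G' (fun s => (t s : K)) L y →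
        ∃ T : Fin (m + 1) → k, T ≠ 0 ∧
          ∀ l, valP (φ.comp ρ₀) (G' l) (V y) T (fun s => φ (t s)) = 0 := by
  obtain rfl : dK = (fun a b => Classical.propDecidable (a = b)) := Subsingleton.elim _ _
  obtain rfl : dk = (fun a b => Classical.propDecidable (a = b)) := Subsingleton.elim _ _
  obtain ⟨w, hw, -⟩ := exists_place_g (K := K) p hp φ
  have hint : ∀ x : ℤ, algebraMap K ((hspG p hp φ).adicCompletion K) (x : K) =
      (x : (hspG p hp φ).adicCompletion K) := fun x => map_intCast _ x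
  -- the curves over the completion
  have hW : ∀ i, (sw (a i : K) (b i : K)).baseChange ((hspG p hp φ).adicCompletion K) =
      CV (a i : (hspG p hp φ).adicCompletion K) (b i : (hspG p hp φ).adicCompletion K) := by
    intro i
    rw [bc_eq, hint, hint]
  have hred := fun i => exists_redW w (w.int_mem (a i)) (w.int_mem (b i)) (w.r_int (a i))
    (w.r_int (b i)) (hd i) _ (hW i)
  choose red hred0 hred1 using hred
  refine ⟨fun y i => rep (red i (locHom (L := (hspG p hp φ).adicCompletion K)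
    (sw (a i : K) (b i : K)) (y i))), fun y i => Pool.Agent.W659.FD.onE_rep _, ?_, ?_⟩
  · intro y κ δ h
    funext i
    simp only
    rw [h i, map_add, map_nsmul, map_add, map_nsmul, hkill i, add_zero]
  · intro y t L hnL hy
    obtain ⟨P, ⟨T, hT, h0⟩, hz⟩ := hy (hspG p hp φ)
    obtain ⟨n', hn'⟩ := hnL
    obtain ⟨T', hT', h1⟩ := local_ptV w ((algebraMap K ((hspG p hp φ).adicCompletion K)).comp
      ((algebraMap (𝓞 K) K).comp ρ₀)) (φ.comp ρ₀) (fun x => hw (ρ₀ x)) (fun i => crd (P i))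
      (fun i => rep (red i (P i))) (fun i => hred1 i (P i)) G' d e hG' _ (fun s => (hw (t s)).1)
      T hT h0
    refine ⟨T', hT', fun l => ?_⟩
    have h2 := h1 l
    have h3 : (fun s => w.r (algebraMap K ((hspG p hp φ).adicCompletion K) (t s : K))) =
        fun s => φ (t s) := by
      funext s
      exact (hw (t s)).2
    have h4 : (fun i => rep (red i (P i))) = fun i =>
        rep (red i (locHom (L := (hspG p hp φ).adicCompletion K)
          (sw (a i : K) (b i : K)) (y i))) := by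
      funext i
      obtain ⟨z, hz⟩ := hz i
      have h5 : P i = locHom (L := (hspG p hp φ).adicCompletion K)
          (sw (a i : K) (b i : K)) (y i) + L • z := by
        rw [← hz]
        abel
      rw [h5, map_add, map_nsmul, hn', mul_comm n n', mul_smul, hkill i, smul_zero, add_zero]
    rw [h3, h4] at h2
    exact h2

open scoped Classical in
/-- a `K`-rational point gives a point of `A(K)` with the local properties -/
theorem isLoc_of_point {K R : Type} [Field K] [NumberField K] [CommRing R] (ρ : R →+* K)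
    {r m : ℕ} {ι : Type} (a b : Fin r → ℤ) {L' : Type} (G' : L' → Pol R r m ι) (t : ι → K)
    (y : ∀ i, SPt (a i : K) (b i : K)) (T : Fin (m + 1) → K) (hT : T ≠ 0)
    (h0 : ∀ l, valP ρ (G' l) (fun i => crd (y i)) T t = 0) (L : ℕ) :
    IsLoc ρ a b G' t L y := by
  intro v
  refine ⟨fun i => locHom (L := v.adicCompletion K) (sw (a i : K) (b i : K)) (y i),
    ⟨fun s => algebraMap K _ (T s), ?_, fun l => ?_⟩, fun i => ⟨0, ?_⟩⟩
  · intro h
    apply hT
    funext s
    have h1 := congrFun h s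
    simp only [Pi.zero_apply] at h1
    exact (map_eq_zero _).1 h1
  · have h1 := valP_map ρ (algebraMap K (v.adicCompletion K)) (G' l) (fun i => crd (y i)) T t
    rw [h0 l, map_zero] at h1
    rw [h1]
    congr 1
    funext i j
    have h2 : ∀ P : SPt (a i : K) (b i : K), crd (locHom (L := v.adicCompletion K)
        (sw (a i : K) (b i : K)) P) j = algebraMap K (v.adicCompletion K) (crd P j) := by
      intro P
      rcases P with _ | ⟨x, y, h⟩
      · change (![0, 1, 0] : Fin 3 → v.adicCompletion K) j =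
          algebraMap K (v.adicCompletion K) ((![0, 1, 0] : Fin 3 → K) j)
        fin_cases j <;> simp
      · change (![algebraMap K (v.adicCompletion K) x, algebraMap K (v.adicCompletion K) y, 1] :
          Fin 3 → v.adicCompletion K) j =
          algebraMap K (v.adicCompletion K) ((![x, y, 1] : Fin 3 → K) j)
        fin_cases j <;> simp
    exact h2 (y i)
  · rw [sub_self, smul_zero]

end Pool.Agent.N890.FD
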