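import Pool.Agent.N890.FD.SieveK

/-! FD (helper890): the main theorem for Selmer sets over number fields. -/

set_option autoImplicit false

namespace Pool.Agent.N890.FD

open MvPolynomial NumberField Pool.Agent.H901R3.MS WeierstrassCurve Pool.Agent.W659.FD
  Pool.Agent.W659.FK Pool.Agent.N89.CI

theorem ev_log (r : ℝ) (hr : 0 < r) :
    ∃ x₀ : ℝ, 2 ≤ x₀ ∧ ∀ x, x₀ ≤ x → Real.log (x + 1) ≤ x ^ r := by
  have h := (isLittleO_log_rpow_atTop hr).bound (show (0 : ℝ) < 1 / 2 by norm_num)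
  obtain ⟨x₁, hx₁⟩ := (h.and (Filter.eventually_ge_atTop 2)).exists_forall_of_atTop
  refine ⟨max x₁ 2, le_max_right _ _, fun x hx => ?_⟩
  obtain ⟨h1, h2⟩ := hx₁ x ((le_max_left _ _).trans hx)
  have hx0 : (0 : ℝ) < x := by linarith
  have h3 : Real.log (x + 1) ≤ 2 * Real.log x := by
    have h4 : 2 * Real.log x = Real.log (x ^ 2) := by
      rw [Real.log_pow]
      norm_num
    rw [h4]
    apply Real.log_le_log (by linarith)
    nlinarith
  rw [Real.norm_eq_abs, Real.norm_eq_abs, abs_of_nonneg (Real.log_nonneg (by linarith)),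
    abs_of_nonneg (Real.rpow_nonneg hx0.le _)] at h1
  linarith

theorem ev_add (C δ : ℝ) (hC : 0 ≤ C) (hδ : 0 < δ) (hδ1 : δ ≤ 1) :
    ∃ x₀ : ℝ, 1 ≤ x₀ ∧ ∀ x, x₀ ≤ x → C + x ^ (1 - δ) ≤ x ^ (1 - δ / 2) := by
  have h := (tendsto_rpow_atTop (show 0 < δ / 2 by linarith)).eventually_ge_atTop (1 + C)
  obtain ⟨x₁, hx₁⟩ := h.exists_forall_of_atTop
  refine ⟨max x₁ 1, le_max_right _ _, fun x hx => ?_⟩
  have h1 := hx₁ x ((le_max_left _ _).trans hx)
  have hx1 : 1 ≤ x := (le_max_right _ _).trans hx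
  have hx0 : 0 < x := by linarith
  have h2 : x ^ (1 - δ / 2) = x ^ (1 - δ) * x ^ (δ / 2) := by
    rw [← Real.rpow_add hx0]
    congr 1
    ring
  have h3 : 1 ≤ x ^ (1 - δ) := Real.one_le_rpow hx1 (by linarith)
  rw [h2]
  nlinarith

/-- the size of the level -/
theorem log_level (τ : ℝ) (hτ0 : 0 < τ) (hτ1 : τ < 1) : ∃ H₁ : ℕ, ∀ H : ℕ, H₁ ≤ H → ∀ L : ℕ,
    (L : ℝ) ≤ ((⌊Real.log (2 * H + 1) / Real.log 4⌋₊ : ℝ) + 1) ^
      ⌊(⌊Real.log (2 * H + 1) / Real.log 4⌋₊ : ℝ) ^ ((τ + 1) / 2)⌋₊ → 1 ≤ L →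
    Real.log L ≤ Real.log H ^ (1 - (1 - τ) / 4) := by
  obtain ⟨x₀, hx2, hx⟩ := ev_log ((1 - τ) / 4) (by linarith)
  refine ⟨max 18 ⌈Real.exp x₀⌉₊, fun H hH L hL hL1 => ?_⟩
  have h18 : 18 ≤ H := (le_max_left _ _).trans hH
  have h18R : (18 : ℝ) ≤ H := by exact_mod_cast h18
  have hH0 : (0 : ℝ) < H := by linarith
  have hexp : Real.exp x₀ ≤ H := (Nat.le_ceil _).trans (by exact_mod_cast (le_max_right _ _).trans hH)
  have hlog : x₀ ≤ Real.log H := by
    rw [Real.le_log_iff_exp_le hH0]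
    exact hexp
  set y : ℕ := ⌊Real.log (2 * H + 1) / Real.log 4⌋₊ with hy
  have hl4 : Real.log 4 = 2 * Real.log 2 := by
    rw [show (4 : ℝ) = 2 ^ 2 by norm_num, Real.log_pow]
    norm_num
  have hl2 := Real.log_two_gt_d9
  have hl4' : 0 < Real.log 4 := Real.log_pos (by norm_num)
  have hyH : (y : ℝ) ≤ Real.log H := by
    have h1 : (y : ℝ) ≤ Real.log (2 * H + 1) / Real.log 4 :=
      Nat.floor_le (div_nonneg (Real.log_nonneg (by linarith)) hl4'.le)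
    refine h1.trans ?_
    rw [div_le_iff₀ hl4']
    have h2 : Real.log (2 * H + 1) ≤ Real.log 3 + Real.log H := by
      rw [← Real.log_mul (by norm_num) hH0.ne']
      exact Real.log_le_log (by linarith) (by linarith)
    have h3 : Real.log 3 ≤ 1.0987 := by
      rw [Real.log_le_iff_le_exp (by norm_num)]
      have h5 : (3 : ℝ) ≤ Real.exp 1.0987 := by
        have h6 := Real.sum_le_exp_of_nonneg (x := 1.0987) (by norm_num) 12
        refine le_trans ?_ h6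
        norm_num [Finset.sum_range_succ, Nat.factorial]
      exact h5
    have h4 : (2.89 : ℝ) ≤ Real.log H := by
      rw [Real.le_log_iff_exp_le hH0]
      refine le_trans ?_ h18R
      have h7 : Real.exp 2.89 = Real.exp 1 ^ 2 * Real.exp 0.89 := by
        rw [← Real.exp_nat_mul, ← Real.exp_add]
        norm_num
      have h8 : Real.exp 0.89 ≤ 2.436 := by
        have := Real.exp_bound' (x := 0.89) (by norm_num) (by norm_num) (n := 8) (by norm_num)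
        refine this.trans ?_
        norm_num [Finset.sum_range_succ, Nat.factorial]
      have h9 := Real.exp_one_lt_d9
      rw [h7]
      have h10 : Real.exp 1 ^ 2 ≤ 7.38906 := by
        have := Real.exp_pos 1
        nlinarith
      have := Real.exp_pos 0.89
      nlinarith
    nlinarith
  have hL0 : (0 : ℝ) < L := by exact_mod_cast hL1
  have hy0 : (0 : ℝ) ≤ y := Nat.cast_nonneg _
  have hlH1 : 1 ≤ Real.log H := by linarith
  calc Real.log L ≤ Real.log (((y : ℝ) + 1) ^ ⌊(y : ℝ) ^ ((τ + 1) / 2)⌋₊) :=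
        Real.log_le_log hL0 hL
    _ = (⌊(y : ℝ) ^ ((τ + 1) / 2)⌋₊ : ℝ) * Real.log ((y : ℝ) + 1) := by rw [Real.log_pow]
    _ ≤ Real.log H ^ ((τ + 1) / 2) * Real.log (Real.log H + 1) := by
        apply mul_le_mul
        · exact (Nat.floor_le (Real.rpow_nonneg hy0 _)).trans
            (Real.rpow_le_rpow hy0 hyH (by linarith))
        · exact Real.log_le_log (by linarith) (by linarith)
        · exact Real.log_nonneg (by linarith)
        · exact Real.rpow_nonneg (by linarith) _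
    _ ≤ Real.log H ^ ((τ + 1) / 2) * Real.log H ^ ((1 - τ) / 4) :=
        mul_le_mul_of_nonneg_left (hx _ hlog) (Real.rpow_nonneg (by linarith) _)
    _ = Real.log H ^ (1 - (1 - τ) / 4) := by
        rw [← Real.rpow_add (by linarith)]
        congr 1
        ring

theorem pow_boundG {θ : ℝ} (h0 : 0 ≤ θ) (h1 : θ ≤ 1) {w : ℕ} (hw : θ ^ w ≤ 2 / 3) (n : ℕ) :
    θ ^ n ≤ (2 / 3 : ℝ) ^ (n / w) := by
  have h2 : θ ^ n ≤ θ ^ (w * (n / w)) :=
    pow_le_pow_of_le_one h0 h1 (Nat.mul_div_le n w)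
  refine h2.trans ?_
  rw [pow_mul]
  exact pow_le_pow_left₀ (by positivity) hw _

/-- the general principle over number fields -/
theorem mainS {r m : ℕ} {ι : Type} [Fintype ι] (a b : Fin r → ℤ)
    (hab : ∀ i, a i * b i = 0 ∧ (a i ≠ 0 ∨ b i ≠ 0))
    (K : Type) [Field K] [NumberField K] (N : ℕ) (ω : Module.Basis (Fin N) ℤ (𝓞 K))
    {L' : Type} (G' : L' → Pol (𝓞 K) r m ι) (d : L' → Fin r → ℕ) (e : L' → ℕ)
    (hG' : ∀ l, MHomog (G' l) (d l) (e l)) (θ : ℝ) (hθ : 0 ≤ θ) (hθ1 : θ < 1) (p₁ : ℕ)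
    (hloc : ∀ p : ℕ, p.Prime → p₁ ≤ p → 12 ∣ p + 1 → ∀ (k : Type) [Field k] [Fintype k],
      (Fintype.card k = p ∨ Fintype.card k = p ^ 2) → ∀ φ : 𝓞 K →+* k, Function.Surjective φ →
      ∀ V : Fin r → Fin 3 → k, (∀ i, Pool.Agent.W659.FD.OnE (a i) (b i) (V i)) →
        (({t : ι → k | ∃ T : Fin (m + 1) → k, T ≠ 0 ∧
          ∀ l, valP φ (G' l) V T t = 0}.ncard : ℕ) : ℝ) ≤
          θ * (Fintype.card k : ℝ) ^ Fintype.card ι) :
    ∃ c : ℝ, 0 < c ∧ ∃ δ : ℝ, 0 < δ ∧ δ ≤ 1 ∧ ∃ H₀ : ℕ, ∀ H : ℕ, H₀ ≤ H →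
    ∃ L : ℕ, 1 ≤ L ∧ Real.log L ≤ Real.log H ^ (1 - δ) ∧
    (((SelG (algebraMap (𝓞 K) K) ω a b G' L H).ncard : ℕ) : ℝ) ≤
      (2 * (H : ℝ) + 1) ^ (Fintype.card ι * N) *
        Real.exp (-c * (Real.log H / Real.log (Real.log H))) := by
  obtain ⟨p₀, R, hSv⟩ := sieveS a b hab K N ω G' d e hG' θ hθ p₁ hloc
  obtain ⟨M, _, _, hM1, hM3, hM⟩ := _root_.W580.FK.main K
  obtain ⟨τ, hτ0, hτ1, κ, hκ, Y, hY⟩ := spK M True True (fun _ => hM1) (fun _ => hM3)
  obtain ⟨Y₂, hY₂⟩ := floor_step hτ0 hτ1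
  obtain ⟨w, hw⟩ := exists_pow_lt_of_lt_one (show (0 : ℝ) < 2 / 3 by norm_num) hθ1
  have hw1 : 1 ≤ w := by
    rcases Nat.eq_zero_or_pos w with h | h
    · rw [h, pow_zero] at hw
      norm_num at hw
    · exact h
  have hwR : (1 : ℝ) ≤ w := by exact_mod_cast hw1
  obtain ⟨c, hc, H₀, hH3, hA⟩ := t_ASYK (Fintype.card (ι × Fin N)) R (κ / (4 * w)) ((τ + 1) / 2)
    (by positivity) (by linarith) (by linarith)
  set M' : ℕ := p₀ + 20 + 2 * w with hM'
  set N' : ℕ := ⌈(4 * (M' : ℝ) / κ) ^ 2⌉₊ with hN'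
  obtain ⟨H₁, hH₁⟩ := log_level τ hτ0 hτ1
  refine ⟨c, hc, (1 - τ) / 4, by linarith, by linarith,
    max H₁ (max H₀ (4 ^ (max Y (max 3 (max N' Y₂))))), ?_⟩
  intro H hH'
  have hHH1 : H₁ ≤ H := (le_max_left _ _).trans hH'
  have hH : max H₀ (4 ^ (max Y (max 3 (max N' Y₂)))) ≤ H := (le_max_right _ _).trans hH'
  have hH0 : H₀ ≤ H := (le_max_left _ _).trans hH
  have hH1 : 4 ^ (max Y (max 3 (max N' Y₂))) ≤ H := (le_max_right _ _).trans hH
  have hy0 := W_Z1K.le_floor_of_pow hH1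
  have hpow := W_Z1K.pow_le_of_floor H
  set y : ℕ := ⌊Real.log (2 * H + 1) / Real.log 4⌋₊ with hy
  have hyY : Y ≤ y := (le_max_left _ _).trans hy0
  have hy3 : 3 ≤ y := ((le_max_left _ _).trans (le_max_right _ _)).trans hy0
  have hyN : N' ≤ y := (((le_max_left _ _).trans (le_max_right _ _)).trans (le_max_right _ _)).trans
    hy0
  have hyY2 : Y₂ ≤ y := (((le_max_right _ _).trans (le_max_right _ _)).trans
    (le_max_right _ _)).trans hy0
  classical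
  set T : Finset ℕ := (DegP M True True y \ RoughP τ y).filter (fun p => M' ≤ p) with hT
  have hmemT : ∀ p ∈ T, (1 ≤ p ∧ p ≤ y) ∧ (p.Prime ∧ CondP True True p ∧
      Nonempty (𝓞 M →+* ZMod p)) ∧
      (∀ q : ℕ, q.Prime → q ∣ p + 1 → q ≤ ⌊(y : ℝ) ^ τ⌋₊) ∧ M' ≤ p := by
    intro p hp
    rw [hT, Finset.mem_filter, Finset.mem_sdiff] at hp
    obtain ⟨⟨h1, h3⟩, h2⟩ := hp
    unfold DegP at h1
    rw [Finset.mem_filter, Finset.mem_Icc] at h1
    refine ⟨h1.1, h1.2, ?_, h2⟩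
    intro q hq hqp
    by_contra hcon
    apply h3
    unfold RoughP
    rw [Finset.mem_filter, Finset.mem_Icc]
    exact ⟨h1.1, h1.2.1, q, hq, hqp, not_le.1 hcon⟩
  -- cardinality
  have hcard : ((DegP M True True y \ RoughP τ y).card : ℝ) ≤ (T.card : ℝ) + M' := by
    have h1 : DegP M True True y \ RoughP τ y ⊆ T ∪ Finset.range M' := by
      intro p hp
      rw [Finset.mem_union]
      by_cases hpM : M' ≤ p
      · left
        rw [hT, Finset.mem_filter]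
        exact ⟨hp, hpM⟩
      · right
        rw [Finset.mem_range]
        omega
    have h2 := (Finset.card_le_card h1).trans (Finset.card_union_le _ _)
    rw [Finset.card_range] at h2
    exact_mod_cast h2
  have hκy := hY y hyY
  have hyr3 : (3 : ℝ) ≤ (y : ℝ) := by exact_mod_cast hy3
  have hMy : (M' : ℝ) ≤ κ / 2 * (y / Real.log y) := by
    have h1 := W_Z1K.div_log_ge hyr3
    have h2 : 4 * (M' : ℝ) / κ ≤ Real.sqrt y := by
      apply Real.le_sqrt_of_sq_le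
      have h3 : (4 * (M' : ℝ) / κ) ^ 2 ≤ (N' : ℝ) := Nat.le_ceil _
      have h4 : (N' : ℝ) ≤ (y : ℝ) := by exact_mod_cast hyN
      exact h3.trans h4
    have h5 : 4 * (M' : ℝ) ≤ Real.sqrt y * κ := by
      rwa [div_le_iff₀ hκ] at h2
    have h6 : κ / 2 * (Real.sqrt y / 2) ≤ κ / 2 * (y / Real.log y) :=
      mul_le_mul_of_nonneg_left h1 (by positivity)
    nlinarith
  have hTcard : κ / 2 * (y / Real.log y) ≤ (T.card : ℝ) := by
    have h1 : κ * (y / Real.log y) = κ / 2 * (y / Real.log y) + κ / 2 * (y / Real.log y) := by ring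
    linarith
  have hT20 : (2 * w : ℝ) ≤ T.card := by
    have h1 : (2 * w : ℝ) ≤ M' := by
      rw [hM']
      push_cast
      have : (0 : ℝ) ≤ p₀ := Nat.cast_nonneg _
      linarith
    linarith
  have hTdiv : κ / (4 * w) * (y / Real.log y) ≤ ((T.card / w : ℕ) : ℝ) := by
    have h1 : T.card < w * (T.card / w) + w := by
      have h4 := Nat.div_add_mod T.card w
      have h5 := Nat.mod_lt T.card hw1
      omega
    have h2 : (T.card : ℝ) < w * ((T.card / w : ℕ) : ℝ) + w := by exact_mod_cast h1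
    have h3 : κ / (4 * w) * (y / Real.log y) = (κ / 2 * (y / Real.log y)) / (2 * w) := by
      field_simp
      ring
    rw [h3, div_le_iff₀ (by positivity)]
    nlinarith
  -- the integer L
  obtain ⟨L, hL1, hL2, hL3⟩ := t_LY y ⌊(y : ℝ) ^ τ⌋₊
  have hL2' : ((2 * L : ℕ) : ℝ) ≤ ((y : ℝ) + 1) ^ ⌊(y : ℝ) ^ ((τ + 1) / 2)⌋₊ := by
    have h1 : (L : ℝ) ≤ ((y : ℝ) + 1) ^ ⌊(y : ℝ) ^ τ⌋₊ := by exact_mod_cast hL2
    have h2 : ((y : ℝ) + 1) ^ (⌊(y : ℝ) ^ τ⌋₊ + 1) ≤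
        ((y : ℝ) + 1) ^ ⌊(y : ℝ) ^ ((τ + 1) / 2)⌋₊ :=
      pow_le_pow_right₀ (by linarith) (hY₂ y hyY2)
    refine le_trans ?_ h2
    rw [pow_succ]
    push_cast
    have h3 : (0 : ℝ) ≤ ((y : ℝ) + 1) ^ ⌊(y : ℝ) ^ τ⌋₊ := by positivity
    nlinarith
  have hdiv : ∀ p ∈ T, 2 * (p + 1) ∣ 2 * L := by
    intro p hp
    obtain ⟨h1, h2, h3, h4⟩ := hmemT p hp
    exact Nat.mul_dvd_mul_left 2 (hL3 (p + 1) (by omega) (by omega) h3)
  have hcond : ∀ p ∈ T, p.Prime ∧ p₀ ≤ p ∧ 12 ∣ p + 1 ∧ GoodP K p := by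
    intro p hpT
    obtain ⟨h1, ⟨h2, h3, h6⟩, h4, h5⟩ := hmemT p hpT
    have : Fact p.Prime := ⟨h2⟩
    have h7 := h3.1 trivial
    have h8 := h3.2 trivial
    exact ⟨h2, by omega, by omega, hM p h7 h6⟩
  have hprod : ∏ p ∈ T, p ≤ 2 * H + 1 := by
    have h1 : ∏ p ∈ T, p ≤ primorial y := by
      unfold primorial
      apply Finset.prod_le_prod_of_subset_of_one_le'
      · intro p hp
        obtain ⟨h1, h2, h3, h4⟩ := hmemT p hp
        rw [Finset.mem_filter, Finset.mem_range]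
        exact ⟨by omega, h2.1⟩
      · intro p hp _
        exact (Finset.mem_filter.1 hp).2.one_lt.le
    exact (h1.trans (primorial_le_four_pow y)).trans hpow
  refine ⟨2 * L, by omega, hH₁ H hHH1 (2 * L) hL2' (by omega), ?_⟩
  have hfin := hSv T hcond (2 * L) (by omega) hdiv H hprod
  have hfin1 : (2 * (2 * (H : ℝ) + 1)) ^ Fintype.card (ι × Fin N) *
      (((2 * L : ℕ) : ℝ) ^ R * θ ^ T.card) ≤
      (2 * (2 * (H : ℝ) + 1)) ^ Fintype.card (ι × Fin N) *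
      (((2 * L : ℕ) : ℝ) ^ R * (2 / 3) ^ (T.card / w)) := by
    apply mul_le_mul_of_nonneg_left _ (by positivity)
    exact mul_le_mul_of_nonneg_left (pow_boundG hθ hθ1.le hw.le _) (by positivity)
  have hfin2 := (hfin.trans hfin1).trans (hA H hH0 y (T.card / w) (2 * L) hy hTdiv hL2')
  rwa [Fintype.card_prod, Fintype.card_fin] at hfin2


end Pool.Agent.N890.FD
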