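import Pool.Agent.N890.FD.Desc
import Pool.Agent.N89.CI.CIK

/-! FD (helper890): the sieve for Selmer sets over number fields. -/

set_option autoImplicit false

namespace Pool.Agent.N890.FD

open MvPolynomial NumberField Pool.Agent.H901R3.MS WeierstrassCurve IsDedekindDomain
open Pool.Agent.TH954 Pool.Agent.TH942 Pool.Agent.N89.CI Pool.Agent.W659.FK Pool.Agent.W659.FD

/-- the coefficient vectors `c` for which some point of `A(K)` is locally in the family modulo `L` -/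
def SelG {K R : Type} [Field K] [NumberField K] [CommRing R] (ρ : R →+* K) {r m N : ℕ}
    {ι L' : Type} (ω : Module.Basis (Fin N) ℤ (𝓞 K)) (a b : Fin r → ℤ)
    (G : L' → Pol R r m ι) (L H : ℕ) : Set (ι × Fin N → ℤ) :=
  {c | (∀ s, |c s| ≤ H) ∧ ∃ y : ∀ i, SPt (a i : K) (b i : K),
    IsLoc ρ a b G (fun i => ((∑ j, c (i, j) • ω j : 𝓞 K) : K)) L y}

/-- the sieve inequality over a number field -/
theorem sieveS {r m : ℕ} {ι : Type} [Fintype ι] (a b : Fin r → ℤ)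
    (hab : ∀ i, a i * b i = 0 ∧ (a i ≠ 0 ∨ b i ≠ 0))
    (K : Type) [Field K] [NumberField K] (N : ℕ) (ω : Module.Basis (Fin N) ℤ (𝓞 K))
    {L' : Type} (G' : L' → Pol (𝓞 K) r m ι) (d : L' → Fin r → ℕ) (e : L' → ℕ)
    (hG' : ∀ l, MHomog (G' l) (d l) (e l)) (θ : ℝ) (hθ : 0 ≤ θ) (p₁ : ℕ)
    (hloc : ∀ p : ℕ, p.Prime → p₁ ≤ p → 12 ∣ p + 1 → ∀ (k : Type) [Field k] [Fintype k],
      (Fintype.card k = p ∨ Fintype.card k = p ^ 2) → ∀ φ : 𝓞 K →+* k, Function.Surjective φ →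
      ∀ V : Fin r → Fin 3 → k, (∀ i, Pool.Agent.W659.FD.OnE (a i) (b i) (V i)) →
        (({t : ι → k | ∃ T : Fin (m + 1) → k, T ≠ 0 ∧
          ∀ l, valP φ (G' l) V T t = 0}.ncard : ℕ) : ℝ) ≤
          θ * (Fintype.card k : ℝ) ^ Fintype.card ι) :
    ∃ p₀ R : ℕ, ∀ T : Finset ℕ,
    (∀ p ∈ T, p.Prime ∧ p₀ ≤ p ∧ 12 ∣ p + 1 ∧ GoodP K p) → ∀ L : ℕ, 1 ≤ L →
    (∀ p ∈ T, 2 * (p + 1) ∣ L) → ∀ H : ℕ, ∏ p ∈ T, p ≤ 2 * H + 1 →
    (((SelG (algebraMap (𝓞 K) K) ω a b G' L H).ncard : ℕ) : ℝ) ≤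
      (2 * (2 * (H : ℝ) + 1)) ^ Fintype.card (ι × Fin N) * ((L : ℝ) ^ R * θ ^ T.card) := by
  classical
  have hdisc := disc_ne hab
  have hdK : ∀ i, Disc (a i : K) (b i : K) := fun i =>
    disc_of two_ne_zero (by exact_mod_cast hdisc i)
  have h1 : ∀ i, ∃ R : ℕ, ∀ L : ℕ, 1 ≤ L → ∃ A : Finset (Pt (a i : K) (b i : K)),
      A.card ≤ L ^ R ∧ ∀ g : Pt (a i : K) (b i : K), ∃ κ ∈ A, ∃ δ : Pt (a i : K) (b i : K),
        g = κ + L • δ := by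
    intro i
    exact t_M2 _ (t_M1K K (a i) (b i) (hdK i))
  choose R hR using h1
  refine ⟨p₁ + 5 + ∑ i, (4 * a i ^ 3 + 27 * b i ^ 2).natAbs + 1, ∑ i, R i, ?_⟩
  intro T hT L hL hTL H hH
  have hTp : ∀ p ∈ T, p.Prime := fun p hp => (hT p hp).1
  have h2 : ∀ i, ∃ A : Finset (Pt (a i : K) (b i : K)),
      A.card ≤ L ^ (R i) ∧ ∀ g : Pt (a i : K) (b i : K), ∃ κ ∈ A, ∃ δ : Pt (a i : K) (b i : K),
        g = κ + L • δ := fun i => hR i L hL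
  choose A hAc hAr using h2
  -- the local data
  have key : ∀ p : ℕ, p ∈ T → ∃ G : (∀ i, SPt (a i : K) (b i : K)) → Set (ι × Fin N → ZMod p),
      (∀ κ, (((G κ).ncard : ℕ) : ℝ) ≤ θ * (p : ℝ) ^ Fintype.card (ι × Fin N)) ∧
      ∀ (y κ δ : ∀ i, SPt (a i : K) (b i : K)) (c : ι × Fin N → ℤ),
        (∀ i, y i = κ i + L • δ i) →
        IsLoc (algebraMap (𝓞 K) K) a b G' (fun i => ((∑ j, c (i, j) • ω j : 𝓞 K) : K)) L y →
          (fun s => (c s : ZMod p)) ∈ G κ := by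
    intro p hp
    obtain ⟨hpp, hp0, h12, k, _, _, hcard, φ, hφ⟩ := hT p hp
    have : Fact p.Prime := ⟨hpp⟩
    have : CharP k p := Pool.Agent.W346.FK.charP_of_card p k hcard
    have hpd : ∀ i, ¬ (p : ℤ) ∣ 4 * a i ^ 3 + 27 * b i ^ 2 := by
      intro i h
      have h5 := Nat.le_of_dvd (Int.natAbs_pos.2 (hdisc i)) (Int.natCast_dvd.1 h)
      have h6 : (4 * a i ^ 3 + 27 * b i ^ 2).natAbs ≤
          ∑ i, (4 * a i ^ 3 + 27 * b i ^ 2).natAbs :=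
        Finset.single_le_sum (f := fun i => (4 * a i ^ 3 + 27 * b i ^ 2).natAbs)
          (fun _ _ => Nat.zero_le _) (Finset.mem_univ i)
      omega
    have h2k : (2 : k) ≠ 0 := by
      intro h
      have h5 : ((2 : ℕ) : k) = 0 := by exact_mod_cast h
      rw [CharP.cast_eq_zero_iff k p] at h5
      have := Nat.le_of_dvd (by norm_num) h5
      omega
    have hdk : ∀ i, Disc (a i : k) (b i : k) := fun i => disc_of h2k (by
      intro h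
      exact hpd i ((CharP.intCast_eq_zero_iff k p _).1 h))
    have hkill : ∀ i, ∀ P : Pt (a i : k) (b i : k), (2 * (p + 1)) • P = 0 := fun i P =>
      Pool.Agent.W605.FK.main p (a i) (b i) (by omega) (hpd i)
        (Pool.Agent.H35R6.DCCNT.cnt p (a i) (b i) hpp h12 (hab i).1) k hcard P
    obtain ⟨V, hV1, hV2, hV3⟩ := local_set (RingHom.id (𝓞 K)) a b G' d e hG' p hpp.ne_zero k φ
      hdk (2 * (p + 1)) hkill
    choose G hG1 hG2 using fun κ : (∀ i, SPt (a i : K) (b i : K)) =>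
      preI K ι N ω p k hcard φ hφ {t : ι → k | ∃ T : Fin (m + 1) → k, T ≠ 0 ∧
          ∀ l, valP φ (G' l) (V κ) T t = 0} θ
        (hloc p hpp (by omega) h12 k hcard φ hφ _ (fun i => hV1 κ i))
    refine ⟨G, hG1, ?_⟩
    intro y κ δ c hy hz
    apply hG2 κ c
    obtain ⟨T', hT', h7⟩ := hV3 y (fun i => ∑ j, c (i, j) • ω j) L (hTL p hp) hz
    obtain ⟨m', hm'⟩ := hTL p hp
    have h8 : V y = V κ := hV2 y κ (fun i => m' • δ i) (fun i => by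
      rw [hy i, hm', mul_smul])
    rw [h8] at h7
    exact ⟨T', hT', h7⟩
  choose G0 hG1 hG2 using key
  let G : (∀ i, SPt (a i : K) (b i : K)) → (p : ℕ) → Set (ι × Fin N → ZMod p) := fun κ p =>
    {c | ∃ hp : p ∈ T, c ∈ G0 p hp κ}
  have hGeq : ∀ κ (p : ℕ) (hp : p ∈ T), G κ p = G0 p hp κ := by
    intro κ p hp
    ext c
    exact ⟨fun ⟨_, h⟩ => h, fun h => ⟨hp, h⟩⟩
  have hB : ∀ κ, (({c : ι × Fin N → ℤ | c ∈ Box (ι × Fin N) H ∧
      ∀ p ∈ T, (fun s => (c s : ZMod p)) ∈ G κ p}.ncard : ℕ) : ℝ) ≤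
      (2 * (2 * (H : ℝ) + 1)) ^ Fintype.card (ι × Fin N) * θ ^ T.card := fun κ =>
    t_BOX (ι × Fin N) T hTp (G κ) θ hθ (by
      intro p hp
      rw [hGeq κ p hp]
      exact hG1 p hp κ) H hH
  have hsub : SelG (algebraMap (𝓞 K) K) ω a b G' L H ⊆ ⋃ κ ∈ Fintype.piFinset A,
      {c : ι × Fin N → ℤ | c ∈ Box (ι × Fin N) H ∧
        ∀ p ∈ T, (fun s => (c s : ZMod p)) ∈ G κ p} := by
    rintro c ⟨hc1, y, hy⟩
    have h3 : ∀ i, ∃ κ ∈ A i, ∃ δ : Pt (a i : K) (b i : K), y i = κ + L • δ := fun i =>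
      hAr i (y i)
    choose κ hκ δ hδ using h3
    rw [Set.mem_iUnion₂]
    refine ⟨κ, Fintype.mem_piFinset.2 hκ, ?_, ?_⟩
    · unfold Box
      rw [Fintype.mem_piFinset]
      intro s
      rw [Finset.mem_Icc]
      exact abs_le.1 (hc1 s)
    intro p hp
    rw [hGeq κ p hp]
    exact hG2 p hp y κ δ c hδ hy
  have hfin : (⋃ κ ∈ Fintype.piFinset A,
      {c : ι × Fin N → ℤ | c ∈ Box (ι × Fin N) H ∧
        ∀ p ∈ T, (fun s => (c s : ZMod p)) ∈ G κ p}).Finite := by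
    apply Set.Finite.subset (Box (ι × Fin N) H).finite_toSet
    intro c hc
    rw [Set.mem_iUnion₂] at hc
    obtain ⟨_, _, hc, _⟩ := hc
    exact hc
  have hcard : (((Fintype.piFinset A).card : ℕ) : ℝ) ≤ (L : ℝ) ^ (∑ i, R i) := by
    rw [Fintype.card_piFinset]
    push_cast
    rw [← Finset.prod_pow_eq_pow_sum]
    refine Finset.prod_le_prod (fun i _ => by positivity) fun i _ => ?_
    exact_mod_cast hAc i
  set s₀ := Fintype.card (ι × Fin N) with hs₀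
  calc (((SelG (algebraMap (𝓞 K) K) ω a b G' L H).ncard : ℕ) : ℝ)
      ≤ (((⋃ κ ∈ Fintype.piFinset A, {c : ι × Fin N → ℤ | c ∈ Box (ι × Fin N) H ∧
          ∀ p ∈ T, (fun s => (c s : ZMod p)) ∈ G κ p}).ncard : ℕ) : ℝ) := by
        exact_mod_cast Set.ncard_le_ncard hsub hfin
    _ ≤ ((∑ κ ∈ Fintype.piFinset A, {c : ι × Fin N → ℤ | c ∈ Box (ι × Fin N) H ∧
          ∀ p ∈ T, (fun s => (c s : ZMod p)) ∈ G κ p}.ncard : ℕ) : ℝ) := by
        exact_mod_cast Finset.set_ncard_biUnion_le _ _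
    _ = ∑ κ ∈ Fintype.piFinset A, (({c : ι × Fin N → ℤ | c ∈ Box (ι × Fin N) H ∧
          ∀ p ∈ T, (fun s => (c s : ZMod p)) ∈ G κ p}.ncard : ℕ) : ℝ) := by
        push_cast
        rfl
    _ ≤ ∑ κ ∈ Fintype.piFinset A, (2 * (2 * (H : ℝ) + 1)) ^ s₀ *
          θ ^ T.card := Finset.sum_le_sum fun κ _ => hB κ
    _ = (((Fintype.piFinset A).card : ℕ) : ℝ) * ((2 * (2 * (H : ℝ) + 1)) ^ s₀ *
          θ ^ T.card) := by rw [Finset.sum_const, nsmul_eq_mul]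
    _ ≤ (L : ℝ) ^ (∑ i, R i) * ((2 * (2 * (H : ℝ) + 1)) ^ s₀ *
          θ ^ T.card) := mul_le_mul_of_nonneg_right hcard (by positivity)
    _ = (2 * (2 * (H : ℝ) + 1)) ^ s₀ * ((L : ℝ) ^ (∑ i, R i) *
          θ ^ T.card) := by ring

end Pool.Agent.N890.FD
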